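import Mathlib

/-!
# Characters of `{0,1}^ℤ`
-/

namespace Q71.WX

open MeasureTheory Filter Topology Set
open scoped symmDiff BoundedContinuousFunction

/-- the configuration space `{0,1}^ℤ` -/
abbrev Cfg := ℤ → Bool

/-- the left shift -/
def shift (x : Cfg) : Cfg := fun i => x (i + 1)

/-- the two-neighbour XOR automaton -/
def xorCA (x : Cfg) : Cfg := fun i => xor (x i) (x (i + 1))

/-- the characters -/
def chi (J : Finset ℤ) (x : Cfg) : ℝ := ∏ j ∈ J, (if x j then (-1 : ℝ) else 1)

theorem chi_sq (J : Finset ℤ) (x : Cfg) : chi J x = 1 ∨ chi J x = -1 := by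
  unfold chi
  induction J using Finset.induction_on with
  | empty => simp
  | insert a s ha ih =>
    rw [Finset.prod_insert ha]
    rcases ih with h | h <;> rw [h] <;> split_ifs <;> simp

theorem abs_chi (J : Finset ℤ) (x : Cfg) : |chi J x| = 1 := by
  rcases chi_sq J x with h | h <;> rw [h] <;> simp

theorem chi_le_one (J : Finset ℤ) (x : Cfg) : chi J x ≤ 1 := by
  rcases chi_sq J x with h | h <;> rw [h]; norm_num

theorem chi_symmDiff (J J' : Finset ℤ) (x : Cfg) : chi (J ∆ J') x = chi J x * chi J' x := by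
  set f : ℤ → ℝ := fun j => if x j then (-1 : ℝ) else 1 with hf
  have hsq : ∀ s : Finset ℤ, (∏ j ∈ s, f j) * (∏ j ∈ s, f j) = 1 := by
    intro s
    rw [← Finset.prod_mul_distrib]
    apply Finset.prod_eq_one
    intro j _
    simp only [hf]
    split_ifs <;> norm_num
  have h1 : J ∆ J' = (J \ J') ∪ (J' \ J) := rfl
  have hd : Disjoint (J \ J') (J' \ J) := disjoint_sdiff_sdiff
  change ∏ j ∈ J ∆ J', f j = (∏ j ∈ J, f j) * ∏ j ∈ J', f j
  rw [h1, Finset.prod_union hd]
  have h2 : ∏ j ∈ J, f j = (∏ j ∈ J \ J', f j) * ∏ j ∈ J ∩ J', f j := by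
    rw [← Finset.prod_union (Finset.disjoint_sdiff_inter J J'), Finset.sdiff_union_inter]
  have h3 : ∏ j ∈ J', f j = (∏ j ∈ J' \ J, f j) * ∏ j ∈ J ∩ J', f j := by
    rw [Finset.inter_comm J J', ← Finset.prod_union (Finset.disjoint_sdiff_inter J' J),
      Finset.sdiff_union_inter]
  rw [h2, h3]
  calc _ = (∏ j ∈ J \ J', f j) * (∏ j ∈ J' \ J, f j) * 1 := by ring
    _ = _ := by rw [← hsq (J ∩ J')]; ring

theorem chi_shift (J : Finset ℤ) (x : Cfg) : chi J (shift x) = chi (J.image (· + 1)) x := by
  unfold chi shift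
  rw [Finset.prod_image]
  intro a _ b _ h
  simpa using h

theorem chi_shift_iter (J : Finset ℤ) (n : ℕ) (x : Cfg) :
    chi J (shift^[n] x) = chi (J.image (· + (n : ℤ))) x := by
  have h1 : ∀ (n : ℕ) (i : ℤ), (shift^[n] x) i = x (i + n) := by
    intro n
    induction n with
    | zero => intro i; simp
    | succ n ih =>
      intro i
      rw [Function.iterate_succ_apply']
      change (shift^[n] x) (i + 1) = _
      rw [ih]; congr 1; push_cast; ring
  unfold chi
  rw [Finset.prod_image]
  · simp_rw [h1]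
  · intro a _ b _ h
    simpa using h

theorem chi_xorCA (J : Finset ℤ) (x : Cfg) :
    chi J (xorCA x) = chi (J ∆ (J.image (· + 1))) x := by
  rw [chi_symmDiff, ← chi_shift]
  unfold chi
  rw [← Finset.prod_mul_distrib]
  refine Finset.prod_congr rfl fun j _ => ?_
  unfold xorCA shift
  cases x j <;> cases x (j + 1) <;> simp

theorem chi_xor (J : Finset ℤ) (x y : Cfg) :
    chi J (fun i => xor (x i) (y i)) = chi J x * chi J y := by
  unfold chi
  rw [← Finset.prod_mul_distrib]
  refine Finset.prod_congr rfl fun j _ => ?_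
  change (if xor (x j) (y j) then (-1 : ℝ) else 1) = _
  cases x j <;> cases y j <;> simp

theorem chi_zero (J : Finset ℤ) : chi J (fun _ => false) = 1 := by
  unfold chi; simp

theorem continuous_chi (J : Finset ℤ) : Continuous (chi J) := by
  unfold chi
  apply continuous_finsetProd
  intro j _
  exact (continuous_of_discreteTopology (f := fun b : Bool => if b then (-1 : ℝ) else 1)).comp
    (continuous_apply j)

theorem measurable_chi (J : Finset ℤ) : Measurable (chi J) := (continuous_chi J).measurable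

theorem one_sub_chi_le (J : Finset ℤ) (x : Cfg) :
    1 - chi J x ≤ 2 * ∑ j ∈ J, (if x j then (1 : ℝ) else 0) := by
  unfold chi
  induction J using Finset.induction_on with
  | empty => simp
  | insert a s ha ih =>
    rw [Finset.prod_insert ha, Finset.sum_insert ha]
    have h1 : 0 ≤ ∑ j ∈ s, (if x j then (1 : ℝ) else 0) :=
      Finset.sum_nonneg fun j _ => by split_ifs <;> norm_num
    have h2 := abs_chi s x
    unfold chi at h2
    have h3 := abs_le.1 h2.le
    split_ifs
    · linarith [h3.1]
    · linarith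

/-- the span of the characters -/
def V : Submodule ℝ (Cfg → ℝ) := Submodule.span ℝ (range chi)

theorem V_mul {f g : Cfg → ℝ} (hf : f ∈ V) (hg : g ∈ V) : f * g ∈ V := by
  have h1 : V * V ≤ V := by
    unfold V
    rw [Submodule.span_mul_span]
    apply Submodule.span_mono
    rintro _ ⟨_, ⟨J, rfl⟩, _, ⟨J', rfl⟩, rfl⟩
    exact ⟨J ∆ J', funext fun x => chi_symmDiff J J' x⟩
  exact h1 (Submodule.mul_mem_mul hf hg)

theorem one_mem_V : (fun _ => 1 : Cfg → ℝ) ∈ V :=
  Submodule.subset_span ⟨∅, funext fun x => by simp [chi]⟩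

/-- Stone-Weierstrass: the characters span a dense subspace. -/
theorem exists_approx (f : Cfg → ℝ) (hf : Continuous f) {ε : ℝ} (hε : 0 < ε) :
    ∃ g ∈ V, ∀ x, |g x - f x| < ε := by
  let A : Subalgebra ℝ C(Cfg, ℝ) :=
    { carrier := {f | (f : Cfg → ℝ) ∈ V}
      mul_mem' := fun {a b} ha hb => by
        change (⇑(a * b) : Cfg → ℝ) ∈ V
        rw [ContinuousMap.coe_mul]; exact V_mul ha hb
      add_mem' := fun {a b} ha hb => by
        change (⇑(a + b) : Cfg → ℝ) ∈ V
        rw [ContinuousMap.coe_add]; exact V.add_mem ha hb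
      algebraMap_mem' := fun r => by
        have h1 := V.smul_mem r one_mem_V
        have h2 : (⇑((algebraMap ℝ C(Cfg, ℝ)) r) : Cfg → ℝ) = r • (fun _ => 1 : Cfg → ℝ) := by
          ext x; simp [algebraMap_apply]
        change (⇑((algebraMap ℝ C(Cfg, ℝ)) r) : Cfg → ℝ) ∈ V
        rw [h2]; exact h1 }
  have hsep : A.SeparatesPoints := by
    intro x y hxy
    obtain ⟨i, hi⟩ := Function.ne_iff.1 hxy
    refine ⟨chi {i}, ⟨⟨chi {i}, continuous_chi _⟩, Submodule.subset_span ⟨{i}, rfl⟩, rfl⟩, ?_⟩
    unfold chi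
    simp only [Finset.prod_singleton]
    cases hx : x i <;> cases hy : y i <;> simp_all <;> norm_num
  obtain ⟨g, hg⟩ := ContinuousMap.exists_mem_subalgebra_near_continuous_of_separatesPoints A hsep
    f hf ε hε
  exact ⟨(g : C(Cfg, ℝ)), g.2, fun x => by simpa [Real.norm_eq_abs] using hg x⟩

theorem V_cont {g : Cfg → ℝ} (hg : g ∈ V) : Continuous g := by
  unfold V at hg
  induction hg using Submodule.span_induction with
  | mem x hx => obtain ⟨J, rfl⟩ := hx; exact continuous_chi J
  | zero => exact continuous_zero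
  | add x y _ _ hx hy => exact hx.add hy
  | smul a x _ hx => exact continuous_const.smul hx

theorem V_bdd {g : Cfg → ℝ} (hg : Continuous g) : ∃ C : ℝ, 0 ≤ C ∧ ∀ x, |g x| ≤ C := by
  obtain ⟨C, hC⟩ := (isCompact_univ (X := Cfg)).exists_bound_of_continuousOn hg.continuousOn
  exact ⟨C, (norm_nonneg _).trans (hC (fun _ => false) trivial), fun x => hC x trivial⟩

theorem integrable_cont {μ : Measure Cfg} [IsProbabilityMeasure μ] {g : Cfg → ℝ}
    (hg : Continuous g) : Integrable g μ := by
  obtain ⟨C, _, hC⟩ := V_bdd hg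
  exact Integrable.of_bound hg.measurable.aestronglyMeasurable C
    (Filter.Eventually.of_forall hC)

theorem abs_integral_sub_le {μ : Measure Cfg} [IsProbabilityMeasure μ] {f g : Cfg → ℝ}
    (hf : Integrable f μ) (hg : Integrable g μ) {ε : ℝ} (h : ∀ x, |g x - f x| ≤ ε) :
    |∫ x, g x ∂μ - ∫ x, f x ∂μ| ≤ ε := by
  rw [← integral_sub hg hf]
  calc |∫ x, (g x - f x) ∂μ| ≤ ∫ x, |g x - f x| ∂μ := abs_integral_le_integral_abs
    _ ≤ ∫ _, ε ∂μ := integral_mono (hg.sub hf).abs (integrable_const _) h
    _ = ε := by simp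

/-- Measures with the same characters are equal. -/
theorem ext_chi {μ ν : Measure Cfg} [IsProbabilityMeasure μ] [IsProbabilityMeasure ν]
    (h : ∀ J, ∫ x, chi J x ∂μ = ∫ x, chi J x ∂ν) : μ = ν := by
  apply ext_of_forall_integral_eq_of_IsFiniteMeasure
  intro f
  have hV : ∀ g ∈ V, ∫ x, g x ∂μ = ∫ x, g x ∂ν := by
    intro g hg
    have hg' := hg
    unfold V at hg
    induction hg using Submodule.span_induction with
    | mem x hx => obtain ⟨J, rfl⟩ := hx; exact h J
    | zero => simp
    | add x y hx' hy' hx hy =>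
      have c1 := V_cont (g := x) hx'
      have c2 := V_cont (g := y) hy'
      simp only [Pi.add_apply]
      rw [integral_add (integrable_cont c1) (integrable_cont c2),
        integral_add (integrable_cont c1) (integrable_cont c2), hx hx', hy hy']
    | smul a x hx' hx =>
      simp only [Pi.smul_apply]
      rw [integral_smul, integral_smul, hx hx']
  by_contra hne
  have hpos : 0 < |∫ x, f x ∂μ - ∫ x, f x ∂ν| := abs_pos.2 (sub_ne_zero.2 hne)
  obtain ⟨g, hg, hgf⟩ := exists_approx f f.continuous (ε := |∫ x, f x ∂μ - ∫ x, f x ∂ν| / 3)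
    (by positivity)
  have c1 := V_cont hg
  have h1 := abs_integral_sub_le (μ := μ) (integrable_cont f.continuous) (integrable_cont c1)
    (fun x => (hgf x).le)
  have h2 := abs_integral_sub_le (μ := ν) (integrable_cont f.continuous) (integrable_cont c1)
    (fun x => (hgf x).le)
  rw [hV g hg] at h1
  have h3 : |∫ x, f x ∂μ - ∫ x, f x ∂ν| ≤ |∫ x, g x ∂ν - ∫ x, f x ∂μ| +
      |∫ x, g x ∂ν - ∫ x, f x ∂ν| := by
    have := abs_sub_le (∫ x, f x ∂μ) (∫ x, g x ∂ν) (∫ x, f x ∂ν)
    rw [abs_sub_comm (∫ x, f x ∂μ) (∫ x, g x ∂ν)] at this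
    exact this
  linarith

/-- A finite compound Poisson law with prescribed characters. -/
theorem exists_law {α : Type*} (I : Finset α) (ω : α → Cfg) (lam : α → ℝ) (hl : ∀ a, 0 ≤ lam a) :
    ∃ μ : Measure Cfg, IsProbabilityMeasure μ ∧
      ∀ J, ∫ x, chi J x ∂μ = Real.exp (-∑ a ∈ I, lam a * (1 - chi J (ω a))) := by
  classical
  induction I using Finset.induction_on with
  | empty =>
    refine ⟨Measure.dirac fun _ => false, inferInstance, fun J => ?_⟩
    rw [integral_dirac]
    simp [chi_zero]
  | insert a s ha ih =>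
    obtain ⟨μ, hμ, hμ2⟩ := ih
    set p : ℝ := (1 - Real.exp (-(2 * lam a))) / 2 with hp
    have he1 : Real.exp (-(2 * lam a)) ≤ 1 := Real.exp_le_one_iff.2 (by linarith [hl a])
    have he0 : 0 < Real.exp (-(2 * lam a)) := Real.exp_pos _
    have hp0 : 0 ≤ p := by rw [hp]; linarith
    have hp1 : 0 ≤ 1 - p := by rw [hp]; linarith
    set T : Cfg → Cfg := fun x i => xor (x i) (ω a i) with hT
    have hTm : Measurable T := by
      refine measurable_pi_lambda _ fun i => ?_
      exact (measurable_of_finite (fun b : Bool => xor b (ω a i))).comp (measurable_pi_apply i)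
    have hTp : IsProbabilityMeasure (μ.map T) := Measure.isProbabilityMeasure_map hTm.aemeasurable
    refine ⟨ENNReal.ofReal (1 - p) • μ + ENNReal.ofReal p • μ.map T, ⟨?_⟩, fun J => ?_⟩
    · rw [Measure.add_apply, Measure.smul_apply, Measure.smul_apply, measure_univ, measure_univ,
        smul_eq_mul, smul_eq_mul, mul_one, mul_one, ← ENNReal.ofReal_add hp1 hp0]
      simp
    · have i1 : Integrable (chi J) (ENNReal.ofReal (1 - p) • μ) :=
        (integrable_cont (continuous_chi J)).smul_measure ENNReal.ofReal_ne_top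
      have i2 : Integrable (chi J) (ENNReal.ofReal p • μ.map T) :=
        (integrable_cont (continuous_chi J)).smul_measure ENNReal.ofReal_ne_top
      rw [integral_add_measure i1 i2, integral_smul_measure, integral_smul_measure,
        ENNReal.toReal_ofReal hp1, ENNReal.toReal_ofReal hp0,
        integral_map hTm.aemeasurable (measurable_chi J).aestronglyMeasurable]
      have h1 : ∀ x, chi J (T x) = chi J x * chi J (ω a) := fun x => chi_xor J x (ω a)
      simp_rw [h1]
      rw [integral_mul_const, hμ2, Finset.sum_insert ha, smul_eq_mul, smul_eq_mul]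
      rw [neg_add, Real.exp_add]
      rcases chi_sq J (ω a) with h | h
      · rw [h]; simp only [sub_self, mul_zero, neg_zero, Real.exp_zero]; ring
      · rw [h]
        have h2 : Real.exp (-(lam a * (1 - -1))) = 1 - 2 * p := by
          rw [hp]
          have : -(lam a * (1 - -1)) = -(2 * lam a) := by ring
          rw [this]; ring
        rw [h2]; ring

end Q71.WX
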