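import Mathlib

/-!
# Counting with binary digits
-/

namespace Q71.WX

open Finset

/-- the levels -/
def lev (i : ℕ) : ℕ := i ^ 2

theorem lev_lt {i j : ℕ} (h : i < j) : lev i + 1 ≤ lev j := by
  unfold lev; nlinarith

theorem lev_le {i j : ℕ} (h : i ≤ j) : lev i ≤ lev j := Nat.pow_le_pow_left h 2

/-- the digit at level `i` vanishes -/
def W (i : ℕ) (x : ℤ) : Prop := (x / 2 ^ (lev i)) % 2 = 0

instance (i : ℕ) (x : ℤ) : Decidable (W i x) := by unfold W; infer_instance

/-- the digits at the levels in `R` vanish -/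
def AR (R : Finset ℕ) (x : ℤ) : Prop := ∀ i ∈ R, W i x

instance (R : Finset ℕ) (x : ℤ) : Decidable (AR R x) := by unfold AR; infer_instance

/-- indicator of `AR` -/
def ind (R : Finset ℕ) (x : ℤ) : ℝ := if AR R x then 1 else 0

theorem ind_nonneg (R : Finset ℕ) (x : ℤ) : 0 ≤ ind R x := by unfold ind; split_ifs <;> norm_num
theorem ind_le_one (R : Finset ℕ) (x : ℤ) : ind R x ≤ 1 := by unfold ind; split_ifs <;> norm_num

theorem W_add_period {i q : ℕ} (h : lev i + 1 ≤ q) (x c : ℤ) : W i (x + c * 2 ^ q) ↔ W i x := by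
  unfold W
  obtain ⟨d, rfl⟩ := Nat.exists_eq_add_of_le h
  have h1 : x + c * 2 ^ (lev i + 1 + d) = x + (c * 2 ^ (1 + d)) * 2 ^ (lev i) := by ring
  rw [h1, Int.add_mul_ediv_right _ _ (by positivity)]
  have h2 : c * 2 ^ (1 + d) = 2 * (c * 2 ^ d) := by ring
  rw [h2]; omega

theorem W_add_half (i : ℕ) (x : ℤ) : W i (x + 2 ^ (lev i)) ↔ ¬ W i x := by
  unfold W
  have h1 : x + 2 ^ (lev i) = x + 1 * 2 ^ (lev i) := by ring
  rw [h1, Int.add_mul_ediv_right _ _ (by positivity)]
  omega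

theorem AR_add_period {R : Finset ℕ} {q : ℕ} (h : ∀ i ∈ R, lev i + 1 ≤ q) (x c : ℤ) :
    AR R (x + c * 2 ^ q) ↔ AR R x := by
  unfold AR
  exact forall₂_congr fun i hi => W_add_period (h i hi) x c

theorem AR_block {R : Finset ℕ} {l : ℕ} (h : ∀ i ∈ R, l ≤ lev i) {x y : ℤ}
    (hxy : x / 2 ^ l = y / 2 ^ l) : AR R x ↔ AR R y := by
  unfold AR
  refine forall₂_congr fun i hi => ?_
  unfold W
  obtain ⟨d, hd⟩ := Nat.exists_eq_add_of_le (h i hi)
  have h1 : ∀ z : ℤ, z / 2 ^ (lev i) = z / 2 ^ l / 2 ^ d := by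
    intro z
    rw [hd, pow_add, Int.ediv_ediv_of_nonneg (by positivity)]
  rw [h1 x, h1 y, hxy]

theorem sum_shift {Q : ℕ} {f : ℤ → ℝ} (hf : ∀ x, f (x + Q) = f x) (c : ℤ) :
    ∑ s ∈ range Q, f (s + c) = ∑ s ∈ range Q, f s := by
  have h1 : ∀ c : ℤ, ∑ s ∈ range Q, f (s + (c + 1)) = ∑ s ∈ range Q, f (s + c) := by
    intro c
    have e1 := Finset.sum_range_succ (fun s : ℕ => f (s + c)) Q
    have e2 := Finset.sum_range_succ' (fun s : ℕ => f (s + c)) Q
    have e3 : f ((Q : ℤ) + c) = f (((0 : ℕ) : ℤ) + c) := by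
      rw [Nat.cast_zero, zero_add, add_comm, hf]
    have e4 : ∑ s ∈ range Q, f ((((s + 1 : ℕ)) : ℤ) + c) = ∑ s ∈ range Q, f (s + (c + 1)) := by
      refine Finset.sum_congr rfl fun s _ => ?_
      congr 1; push_cast; ring
    rw [e4] at e2
    linarith
  induction c using Int.induction_on with
  | zero => simp
  | succ i ih => rw [h1, ih]
  | pred i ih =>
    rw [← ih, ← h1 (-(i : ℤ) - 1)]
    congr 1; ext s; congr 1; ring

theorem sum_half {Q l : ℕ} (hQ : ∃ T : ℕ, Q = 2 ^ (l + 1) * T) {g : ℤ → ℝ}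
    (hg : ∀ x, g (x + 2 ^ l) = g x) :
    ∑ s ∈ range Q, g s * (if ((s : ℤ) / 2 ^ l) % 2 = 0 then 1 else 0) =
      (1 / 2) * ∑ s ∈ range Q, g s := by
  obtain ⟨T, rfl⟩ := hQ
  set f : ℤ → ℝ := fun x => g x * (if (x / 2 ^ l) % 2 = 0 then 1 else 0) with hf
  have hgper : ∀ (n : ℕ) x, g (x + n * 2 ^ l) = g x := by
    intro n
    induction n with
    | zero => intro x; simp
    | succ n ih =>
      intro x
      have : x + ((n + 1 : ℕ) : ℤ) * 2 ^ l = (x + n * 2 ^ l) + 2 ^ l := by push_cast; ring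
      rw [this, hg, ih]
  have hper : ∀ x, f (x + ((2 ^ (l + 1) * T : ℕ) : ℤ)) = f x := by
    intro x
    simp only [hf]
    have h1 : x + ((2 ^ (l + 1) * T : ℕ) : ℤ) = x + ((2 * T : ℕ) : ℤ) * 2 ^ l := by
      push_cast; ring
    rw [h1, hgper, Int.add_mul_ediv_right _ _ (by positivity)]
    have h2 : (x / 2 ^ l + ((2 * T : ℕ) : ℤ)) % 2 = (x / 2 ^ l) % 2 := by push_cast; omega
    rw [h2]
  have h1 := sum_shift hper (2 ^ l)
  have h2 : ∀ s : ℕ, f (s + 2 ^ l) = g s - f s := by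
    intro s
    simp only [hf]
    have h3 : (s : ℤ) + 2 ^ l = s + 1 * 2 ^ l := by ring
    rw [hg, h3, Int.add_mul_ediv_right _ _ (by positivity)]
    by_cases h4 : ((s : ℤ) / 2 ^ l) % 2 = 0
    · have h5 : ¬ (((s : ℤ) / 2 ^ l + 1) % 2 = 0) := by omega
      rw [if_pos h4, if_neg h5]; ring
    · have h5 : (((s : ℤ) / 2 ^ l + 1) % 2 = 0) := by omega
      rw [if_neg h4, if_pos h5]; ring
  simp_rw [h2] at h1
  rw [Finset.sum_sub_distrib] at h1
  change ∑ s ∈ range (2 ^ (l + 1) * T), f s = _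
  linarith

theorem sum_AR {q p : ℕ} {R : Finset ℕ} (hq : ∀ i ∈ R, lev i + 1 ≤ q) (hp : ∀ i ∈ R, p ≤ lev i)
    {f : ℤ → ℝ} (hf : ∀ x (c : ℤ), f (x + c * 2 ^ p) = f x) :
    ∑ s ∈ range (2 ^ q), f s * ind R s = (1 / 2) ^ R.card * ∑ s ∈ range (2 ^ q), f s := by
  induction R using Finset.induction_on_max with
  | empty => simp [ind, AR]
  | insert a s has ih =>
    have hnot : a ∉ s := fun h => lt_irrefl a (has a h)
    rw [Finset.card_insert_of_notMem hnot]
    have ih' := ih (fun i hi => hq i (Finset.mem_insert_of_mem hi))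
      (fun i hi => hp i (Finset.mem_insert_of_mem hi))
    have h1 : ∀ x : ℤ, f x * ind (insert a s) x =
        (f x * ind s x) * (if (x / 2 ^ (lev a)) % 2 = 0 then 1 else 0) := by
      intro x
      unfold ind
      have h2 : AR (insert a s) x ↔ AR s x ∧ (x / 2 ^ (lev a)) % 2 = 0 := by
        unfold AR
        rw [Finset.forall_mem_insert]
        unfold W
        exact and_comm
      by_cases h3 : AR s x <;> by_cases h4 : (x / 2 ^ (lev a)) % 2 = 0
      · rw [if_pos (h2.2 ⟨h3, h4⟩), if_pos h3, if_pos h4]; ring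
      · rw [if_neg (fun h => h4 (h2.1 h).2), if_neg h4]; ring
      · rw [if_neg (fun h => h3 (h2.1 h).1), if_neg h3]; ring
      · rw [if_neg (fun h => h3 (h2.1 h).1), if_neg h3]; ring
    simp_rw [h1]
    have h2 := sum_half (Q := 2 ^ q) (l := lev a) (by
      obtain ⟨d, hd⟩ := Nat.exists_eq_add_of_le (hq a (Finset.mem_insert_self _ _))
      exact ⟨2 ^ d, by rw [hd, pow_add]⟩) (g := fun x => f x * ind s x) (by
      intro x
      have h3 : f (x + 2 ^ (lev a)) = f x := by
        obtain ⟨d, hd⟩ := Nat.exists_eq_add_of_le (hp a (Finset.mem_insert_self _ _))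
        have : x + 2 ^ (lev a) = x + (2 ^ d) * 2 ^ p := by rw [hd]; ring
        rw [this, hf]
      have h4 : AR s (x + 2 ^ (lev a)) ↔ AR s x := by
        have := AR_add_period (R := s) (q := lev a) (fun i hi => lev_lt (has i hi)) x 1
        rwa [one_mul] at this
      unfold ind
      rw [h3, if_congr h4 rfl rfl])
    rw [h2, ih']
    ring

/-- the density of `AR R` -/
theorem sum_ind {q : ℕ} {R : Finset ℕ} (hq : ∀ i ∈ R, lev i + 1 ≤ q) (c : ℤ) :
    ∑ s ∈ range (2 ^ q), ind R (s + c) = (1 / 2) ^ R.card * 2 ^ q := by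
  have h1 := sum_AR (p := 0) hq (fun i _ => Nat.zero_le _) (f := fun _ => 1) (fun _ _ => rfl)
  simp only [one_mul, Finset.sum_const, Finset.card_range, nsmul_eq_mul, mul_one, Nat.cast_pow,
    Nat.cast_ofNat] at h1
  rw [← h1]
  apply sum_shift
  intro x
  unfold ind
  have h2 := AR_add_period hq x 1
  rw [one_mul] at h2
  have h3 : x + ((2 ^ q : ℕ) : ℤ) = x + 2 ^ q := by push_cast; rfl
  rw [h3, if_congr h2 rfl rfl]

theorem sum_mod {P c : ℕ} (hc : c ≤ P) (T : ℕ) :
    ∑ s ∈ range (P * T), (if ((s : ℤ) % P < c) then (1 : ℝ) else 0) = T * c := by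
  induction T with
  | zero => simp
  | succ T ih =>
    rw [mul_add, mul_one, Finset.sum_range_add, ih]
    have h1 : ∀ s ∈ range P, (if ((((P * T + s : ℕ) : ℤ)) % P < c) then (1 : ℝ) else 0) =
        if s < c then 1 else 0 := by
      intro s hs
      have h2 : (((P * T + s : ℕ) : ℤ)) % P = s := by
        have : (P * T + s) % P = s := by
          rw [Nat.mul_add_mod]; exact Nat.mod_eq_of_lt (Finset.mem_range.1 hs)
        exact_mod_cast this
      rw [h2]
      simp
    rw [Finset.sum_congr rfl h1, Finset.sum_boole]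
    have h3 : (range P).filter (fun s => s < c) = range c := by
      ext s; simp only [Finset.mem_filter, Finset.mem_range]; omega
    rw [h3, Finset.card_range]
    push_cast; ring

/-- the symmetric difference event along a block -/
def PR (R : Finset ℕ) (k : ℕ) (x : ℤ) : Prop :=
  ∃ u : ℤ, 0 ≤ u ∧ u < 2 ^ k ∧ ¬ (AR R (x + u) ↔ AR R (x + u + 2 ^ k))

theorem PR_split {R : Finset ℕ} {k r : ℕ} (hlow : ∀ i < r, lev i + 1 ≤ k) {x : ℤ}
    (h : PR R k x) :
    ∃ u : ℤ, 0 ≤ u ∧ u < 2 ^ k ∧ ¬ (AR (R.filter (fun i => r ≤ i)) (x + u) ↔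
      AR (R.filter (fun i => r ≤ i)) (x + u + 2 ^ k)) := by
  obtain ⟨u, hu0, hu1, hu⟩ := h
  refine ⟨u, hu0, hu1, fun hiff => hu ?_⟩
  have h1 : ∀ y, AR R y ↔ AR (R.filter (fun i => i < r)) y ∧ AR (R.filter (fun i => r ≤ i)) y := by
    intro y
    unfold AR
    constructor
    · intro h
      exact ⟨fun i hi => h i (Finset.mem_filter.1 hi).1, fun i hi => h i (Finset.mem_filter.1 hi).1⟩
    · rintro ⟨ha, hb⟩ i hi
      rcases lt_or_ge i r with h | h
      · exact ha i (Finset.mem_filter.2 ⟨hi, h⟩)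
      · exact hb i (Finset.mem_filter.2 ⟨hi, h⟩)
  have h2 := AR_add_period (R := R.filter (fun i => i < r)) (q := k)
    (fun i hi => hlow i (Finset.mem_filter.1 hi).2) (x + u) 1
  rw [one_mul] at h2
  rw [h1 (x + u), h1 (x + u + 2 ^ k), h2, hiff]

theorem PR_case1 {R : Finset ℕ} {k r : ℕ} (hlow : ∀ i < r, lev i + 1 ≤ k)
    (hhigh : ∀ i, r ≤ i → k ≤ lev i) {x : ℤ} (h : PR R k x) :
    AR (R.filter (fun i => r ≤ i)) x ∨ AR (R.filter (fun i => r ≤ i)) (x + 2 ^ k) ∨
      AR (R.filter (fun i => r ≤ i)) (x + 2 ^ (k + 1)) := by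
  obtain ⟨u, hu0, hu1, hu⟩ := PR_split hlow h
  set B := R.filter (fun i => r ≤ i) with hB
  have hblock : ∀ {y z : ℤ}, y / 2 ^ k = z / 2 ^ k → (AR B y ↔ AR B z) := fun h =>
    AR_block (fun i hi => hhigh i (Finset.mem_filter.1 hi).2) h
  have hpos : (0 : ℤ) < 2 ^ k := by positivity
  have e2 : (2 : ℤ) ^ (k + 1) = 2 ^ k + 2 ^ k := by ring
  have hcase : ∀ y z : ℤ, z ≤ y → y < z + 2 ^ k → y / 2 ^ k = z / 2 ^ k ∨
      y / 2 ^ k = (z + 2 ^ k) / 2 ^ k := by
    intro y z h1 h2
    have h3 : (z + 2 ^ k) / 2 ^ k = z / 2 ^ k + 1 := by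
      have : z + 2 ^ k = z + 1 * 2 ^ k := by ring
      rw [this, Int.add_mul_ediv_right _ _ hpos.ne']
    have h4 : z / 2 ^ k ≤ y / 2 ^ k := Int.ediv_le_ediv hpos h1
    have h5 : y / 2 ^ k ≤ (z + 2 ^ k) / 2 ^ k := Int.ediv_le_ediv hpos h2.le
    rw [h3] at h5 ⊢
    omega
  have hor : AR B (x + u) ∨ AR B (x + u + 2 ^ k) := by
    by_contra hno
    rw [not_or] at hno
    exact hu ⟨fun h => absurd h hno.1, fun h => absurd h hno.2⟩
  rcases hor with h1 | h1
  · rcases hcase (x + u) x (by linarith) (by linarith) with h2 | h2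
    · exact Or.inl ((hblock h2).1 h1)
    · exact Or.inr (Or.inl ((hblock h2).1 h1))
  · rcases hcase (x + u + 2 ^ k) (x + 2 ^ k) (by linarith) (by linarith) with h2 | h2
    · exact Or.inr (Or.inl ((hblock h2).1 h1))
    · right; right
      rw [e2, ← add_assoc]
      exact (hblock h2).1 h1

theorem PR_case2 {R : Finset ℕ} {k r l : ℕ} (hlow : ∀ i < r, lev i + 1 ≤ k)
    (hhigh : ∀ i ∈ R, r ≤ i → l ≤ lev i) (hkl : k + 1 ≤ l) {x : ℤ} (h : PR R k x) :
    (x + 2 ^ (k + 1)) % 2 ^ l < 2 ^ (k + 1) ∧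
    (AR (R.filter (fun i => r ≤ i)) x ∨ AR (R.filter (fun i => r ≤ i)) (x + 2 ^ (k + 1))) := by
  obtain ⟨u, hu0, hu1, hu⟩ := PR_split hlow h
  set B := R.filter (fun i => r ≤ i) with hB
  have hblock : ∀ {y z : ℤ}, y / 2 ^ l = z / 2 ^ l → (AR B y ↔ AR B z) := fun h =>
    AR_block (fun i hi => hhigh i (Finset.mem_filter.1 hi).1 (Finset.mem_filter.1 hi).2) h
  have hpos : (0 : ℤ) < 2 ^ l := by positivity
  have hposk : (0 : ℤ) < 2 ^ k := by positivity
  have e2 : (2 : ℤ) ^ (k + 1) = 2 ^ k + 2 ^ k := by ring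
  have hle : (2 : ℤ) ^ (k + 1) ≤ 2 ^ l := pow_le_pow_right₀ (by norm_num) hkl
  set c : ℤ := 2 ^ (k + 1) with hc
  have hdm := Int.emod_add_mul_ediv (x + c) (2 ^ l)
  have hm0 := Int.emod_nonneg (x + c) hpos.ne'
  have hm1 := Int.emod_lt_of_pos (x + c) hpos
  set m := (x + c) % 2 ^ l with hm
  set t := (x + c) / 2 ^ l with ht
  -- if the block of x and x + c are the same then contradiction
  have hlt : m < c := by
    by_contra hno
    rw [not_lt] at hno
    -- all points of [x, x + c] are in the block t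
    have hall : ∀ y : ℤ, x ≤ y → y ≤ x + c → y / 2 ^ l = t := by
      intro y h1 h2
      have h3 : 2 ^ l * t ≤ y := by linarith
      have h4 : y < 2 ^ l * t + 2 ^ l := by linarith
      apply le_antisymm
      · rw [← Int.lt_add_one_iff, Int.ediv_lt_iff_lt_mul hpos]; linarith
      · rw [Int.le_ediv_iff_mul_le hpos]; linarith
    exact hu (hblock ((hall _ (by linarith) (by linarith)).trans
      (hall _ (by linarith) (by linarith)).symm))
  refine ⟨hlt, ?_⟩
  -- blocks of points of [x, x + c] are t - 1 or t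
  have hx : x / 2 ^ l = t - 1 := by
    apply le_antisymm
    · rw [← Int.lt_add_one_iff, Int.ediv_lt_iff_lt_mul hpos]
      linarith
    · rw [Int.le_ediv_iff_mul_le hpos]
      linarith
  have hcase : ∀ y : ℤ, x ≤ y → y ≤ x + c → y / 2 ^ l = x / 2 ^ l ∨
      y / 2 ^ l = (x + c) / 2 ^ l := by
    intro y h1 h2
    have h4 : x / 2 ^ l ≤ y / 2 ^ l := Int.ediv_le_ediv hpos h1
    have h5 : y / 2 ^ l ≤ (x + c) / 2 ^ l := Int.ediv_le_ediv hpos h2
    rw [← ht] at h5 ⊢
    rw [hx] at h4 ⊢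
    omega
  have hor : AR B (x + u) ∨ AR B (x + u + 2 ^ k) := by
    by_contra hno
    rw [not_or] at hno
    exact hu ⟨fun h => absurd h hno.1, fun h => absurd h hno.2⟩
  rcases hor with h1 | h1
  · rcases hcase (x + u) (by linarith) (by linarith) with h2 | h2
    · exact Or.inl ((hblock h2).1 h1)
    · exact Or.inr ((hblock h2).1 h1)
  · rcases hcase (x + u + 2 ^ k) (by linarith) (by linarith) with h2 | h2
    · exact Or.inl ((hblock h2).1 h1)
    · exact Or.inr ((hblock h2).1 h1)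

open Classical in
/-- The count of the block event. -/
theorem sum_PR {R : Finset ℕ} {k r M : ℕ} (hR : R ⊆ range M) (hrM : r + 1 ≤ M)
    (hlow : ∀ i < r, lev i + 1 ≤ k) (hk : k ≤ lev r) (j : ℤ) :
    ∑ s ∈ range (2 ^ lev M), (if PR R k (s + j) then (1 : ℝ) else 0) ≤
      2 ^ lev M * (1 / 2) ^ (R.filter (fun i => r ≤ i)).card *
        (3 * (if r ∈ R then 1 else 0) + 4 * (2 ^ lev r / 2 ^ lev (r + 1))) := by
  set B := R.filter (fun i => r ≤ i) with hB
  have hBq : ∀ i ∈ B, lev i + 1 ≤ lev M := fun i hi =>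
    lev_lt (Finset.mem_range.1 (hR (Finset.mem_filter.1 hi).1))
  have hhigh : ∀ i, r ≤ i → k ≤ lev i := fun i hi => hk.trans (lev_le hi)
  by_cases hr : r ∈ R
  · rw [if_pos hr]
    have h1 : ∀ s ∈ range (2 ^ lev M), (if PR R k (s + j) then (1 : ℝ) else 0) ≤
        ind B (s + j) + ind B (s + (j + 2 ^ k)) + ind B (s + (j + 2 ^ (k + 1))) := by
      intro s _
      have n1 := ind_nonneg B (s + j)
      have n2 := ind_nonneg B (s + (j + 2 ^ k))
      have n3 := ind_nonneg B (s + (j + 2 ^ (k + 1)))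
      split_ifs with h
      · rcases PR_case1 hlow hhigh h with h | h | h
        · have : ind B (s + j) = 1 := by unfold ind; rw [if_pos h]
          linarith
        · have : ind B (s + (j + 2 ^ k)) = 1 := by
            unfold ind; rw [← add_assoc, if_pos h]
          linarith
        · have : ind B (s + (j + 2 ^ (k + 1))) = 1 := by
            unfold ind; rw [← add_assoc, if_pos h]
          linarith
      · linarith
    refine (Finset.sum_le_sum h1).trans ?_
    rw [Finset.sum_add_distrib, Finset.sum_add_distrib, sum_ind hBq, sum_ind hBq, sum_ind hBq]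
    have h2 : (0 : ℝ) ≤ 2 ^ lev M * (1 / 2) ^ B.card * (4 * (2 ^ lev r / 2 ^ lev (r + 1))) := by
      positivity
    linarith
  · rw [if_neg hr]
    set l := lev (r + 1) with hl
    have hkl : k + 1 ≤ l := by
      have := lev_lt (Nat.lt_succ_self r)
      simp only [Nat.succ_eq_add_one] at this
      omega
    have hhigh' : ∀ i ∈ R, r ≤ i → l ≤ lev i := by
      intro i hi hri
      rcases Nat.eq_or_lt_of_le hri with h | h
      · exact absurd (h ▸ hi) hr
      · exact lev_le h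
    set c : ℕ := 2 ^ (k + 1) with hc
    set f : ℤ → ℝ := fun x => if x % ((2 ^ l : ℕ) : ℤ) < (c : ℤ) then 1 else 0 with hf
    have hfn : ∀ x, 0 ≤ f x := fun x => by simp only [hf]; split_ifs <;> norm_num
    have hfper : ∀ x (d : ℤ), f (x + d * 2 ^ l) = f x := by
      intro x d
      simp only [hf]
      have : (x + d * 2 ^ l) % ((2 ^ l : ℕ) : ℤ) = x % ((2 ^ l : ℕ) : ℤ) := by
        push_cast
        exact Int.add_mul_emod_self_right _ _ _
      rw [this]
    have h1 : ∀ s ∈ range (2 ^ lev M), (if PR R k (s + j) then (1 : ℝ) else 0) ≤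
        f (s + (j + c)) * ind B (s + j) + f (s + (j + c)) * ind B (s + (j + c)) := by
      intro s _
      have n1 := ind_nonneg B (s + j)
      have n2 := ind_nonneg B (s + (j + c))
      have n3 := hfn (s + (j + c))
      split_ifs with h
      · obtain ⟨h2, h3⟩ := PR_case2 hlow hhigh' hkl h
        have h4 : f (s + (j + c)) = 1 := by
          simp only [hf]
          rw [if_pos]
          rw [← add_assoc, hc]
          push_cast
          exact h2
        rw [h4]
        rcases h3 with h | h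
        · have : ind B (s + j) = 1 := by unfold ind; rw [if_pos h]
          linarith
        · have : ind B (s + (j + c)) = 1 := by
            unfold ind; rw [← add_assoc, hc]; push_cast; rw [if_pos h]
          linarith
      · positivity
    refine (Finset.sum_le_sum h1).trans ?_
    rw [Finset.sum_add_distrib]
    have hlB : ∀ i ∈ B, l ≤ lev i := fun i hi =>
      hhigh' i (Finset.mem_filter.1 hi).1 (Finset.mem_filter.1 hi).2
    have hlM : l ≤ lev M := lev_le hrM
    obtain ⟨d, hd⟩ := Nat.exists_eq_add_of_le hlM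
    have hindper : ∀ x : ℤ, ind B (x + ((2 ^ lev M : ℕ) : ℤ)) = ind B x := by
      intro x
      unfold ind
      have h2 := AR_add_period hBq x 1
      rw [one_mul] at h2
      push_cast
      rw [if_congr h2 rfl rfl]
    have hfQ : ∀ x : ℤ, f (x + ((2 ^ lev M : ℕ) : ℤ)) = f x := by
      intro x
      have : x + ((2 ^ lev M : ℕ) : ℤ) = x + (2 ^ d) * 2 ^ l := by
        rw [hd]; push_cast; ring
      rw [this, hfper]
    have hsumf : ∑ s ∈ range (2 ^ lev M), f s = 2 ^ d * c := by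
      have h2 := sum_mod (P := 2 ^ l) (c := c) (Nat.pow_le_pow_right (by norm_num) hkl)
        (2 ^ d)
      rw [← pow_add, ← hd] at h2
      rw [h2]; push_cast; ring
    -- first sum
    have s1 : ∑ s ∈ range (2 ^ lev M), f (s + (j + c)) * ind B (s + j) =
        (1 / 2) ^ B.card * (2 ^ d * c) := by
      have h2 := sum_shift (Q := 2 ^ lev M) (f := fun x => f (x + c) * ind B x) (by
        intro x
        rw [hindper, add_right_comm, hfQ]) j
      have h3 : ∑ s ∈ range (2 ^ lev M), f (s + (j + c)) * ind B (s + j) =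
          ∑ s ∈ range (2 ^ lev M), f (s + j + c) * ind B (s + j) := by
        simp_rw [add_assoc]
      rw [h3, h2, sum_AR (p := l) hBq hlB (f := fun x => f (x + c)) (by
        intro x d
        rw [add_right_comm, hfper])]
      rw [sum_shift hfQ, hsumf]
    have s2 : ∑ s ∈ range (2 ^ lev M), f (s + (j + c)) * ind B (s + (j + c)) =
        (1 / 2) ^ B.card * (2 ^ d * c) := by
      have h2 := sum_shift (Q := 2 ^ lev M) (f := fun x => f x * ind B x) (by
        intro x
        rw [hindper, hfQ]) (j + c)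
      rw [h2, sum_AR (p := l) hBq hlB hfper, hsumf]
    rw [s1, s2]
    have hck : (c : ℝ) ≤ 2 * 2 ^ lev r := by
      rw [hc]; push_cast
      rw [pow_succ, mul_comm]
      gcongr
      norm_num
    have hM2 : (2 : ℝ) ^ lev M = 2 ^ l * 2 ^ d := by rw [hd, pow_add]
    rw [hM2]
    have h5 : (2 : ℝ) ^ l * 2 ^ d * (1 / 2) ^ B.card * (3 * 0 + 4 * (2 ^ lev r / 2 ^ l)) =
        (1 / 2) ^ B.card * (2 ^ d * (4 * 2 ^ lev r)) := by
      field_simp; ring
    rw [h5]
    have h6 : (1 / 2 : ℝ) ^ B.card * (2 ^ d * c) + (1 / 2) ^ B.card * (2 ^ d * c) =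
        (1 / 2) ^ B.card * (2 ^ d * (2 * c)) := by ring
    rw [h6]
    apply mul_le_mul_of_nonneg_left _ (by positivity)
    apply mul_le_mul_of_nonneg_left _ (by positivity)
    linarith

end Q71.WX
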