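import Pool.Agent.Q71.WX.Lim

/-!
# Weak mixing and weak-* convergence
-/

namespace Q71.WX

open MeasureTheory Filter Topology Finset
open scoped symmDiff

/-- correlation defect of two functions -/
noncomputable def dfc (f g : Cfg → ℝ) (n : ℕ) : ℝ :=
  |∫ x, f x * g (shift^[n] x) ∂mu - (∫ x, f x ∂mu) * ∫ x, g x ∂mu|

theorem cont_iter (n : ℕ) : Continuous (shift^[n]) := continuous_shift.iterate n

theorem int_mul {f g : Cfg → ℝ} (hf : Continuous f) (hg : Continuous g) (n : ℕ) :
    Integrable (fun x => f x * g (shift^[n] x)) mu :=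
  integrable_cont (hf.mul (hg.comp (cont_iter n)))

theorem dfc_add_left {f f' g : Cfg → ℝ} (hf : Continuous f) (hf' : Continuous f')
    (hg : Continuous g) (n : ℕ) : dfc (f + f') g n ≤ dfc f g n + dfc f' g n := by
  unfold dfc
  simp only [Pi.add_apply, add_mul]
  rw [integral_add (int_mul hf hg n) (int_mul hf' hg n),
    integral_add (integrable_cont hf) (integrable_cont hf'), add_mul]
  refine le_trans (le_of_eq ?_) (abs_add_le _ _)
  congr 1; ring

theorem dfc_add_right {f g g' : Cfg → ℝ} (hf : Continuous f) (hg : Continuous g)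
    (hg' : Continuous g') (n : ℕ) : dfc f (g + g') n ≤ dfc f g n + dfc f g' n := by
  unfold dfc
  simp only [Pi.add_apply, mul_add]
  rw [integral_add (int_mul hf hg n) (int_mul hf hg' n),
    integral_add (integrable_cont hg) (integrable_cont hg'), mul_add]
  refine le_trans (le_of_eq ?_) (abs_add_le _ _)
  congr 1; ring

theorem dfc_smul_left (f g : Cfg → ℝ) (c : ℝ) (n : ℕ) : dfc (c • f) g n = |c| * dfc f g n := by
  unfold dfc
  simp only [Pi.smul_apply, smul_eq_mul, mul_assoc]
  rw [integral_const_mul, integral_const_mul, ← abs_mul]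
  congr 1; ring

theorem dfc_smul_right (f g : Cfg → ℝ) (c : ℝ) (n : ℕ) : dfc f (c • g) n = |c| * dfc f g n := by
  unfold dfc
  simp only [Pi.smul_apply, smul_eq_mul]
  have h1 : ∀ x, f x * (c * g (shift^[n] x)) = c * (f x * g (shift^[n] x)) := fun x => by ring
  simp_rw [h1]
  rw [integral_const_mul, integral_const_mul, ← abs_mul]
  congr 1; ring

theorem dfc_nonneg (f g : Cfg → ℝ) (n : ℕ) : 0 ≤ dfc f g n := abs_nonneg _

theorem ces_V {f g : Cfg → ℝ} (hf : f ∈ V) (hg : g ∈ V) : Ces (dfc f g) := by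
  have hf' := hf
  unfold V at hf'
  induction hf' using Submodule.span_induction with
  | mem x hx =>
    obtain ⟨J, rfl⟩ := hx
    have hg' := hg
    unfold V at hg'
    induction hg' using Submodule.span_induction with
    | mem y hy => obtain ⟨J', rfl⟩ := hy; exact ces_chi J J'
    | zero =>
      refine Ces.zero.mono (fun n => dfc_nonneg _ _ _) fun n => ?_
      unfold dfc; simp
    | add y z hy hz ihy ihz =>
      exact ((ihy hy).add (ihz hz)).mono (fun n => dfc_nonneg _ _ _) fun n =>
        dfc_add_right (continuous_chi J) (V_cont hy) (V_cont hz) n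
    | smul a y hy ihy =>
      exact ((ihy hy).const_mul |a|).mono (fun n => dfc_nonneg _ _ _) fun n =>
        (dfc_smul_right _ _ _ _).le
  | zero =>
    refine Ces.zero.mono (fun n => dfc_nonneg _ _ _) fun n => ?_
    unfold dfc; simp
  | add y z hy hz ihy ihz =>
    exact ((ihy hy).add (ihz hz)).mono (fun n => dfc_nonneg _ _ _) fun n =>
      dfc_add_left (V_cont hy) (V_cont hz) (V_cont hg) n
  | smul a y hy ihy =>
    exact ((ihy hy).const_mul |a|).mono (fun n => dfc_nonneg _ _ _) fun n =>
      (dfc_smul_left _ _ _ _).le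

/-- approximation of Borel sets by elements of `V` -/
theorem approx_set {A : Set Cfg} (hA : MeasurableSet A) {ε : ℝ} (hε : 0 < ε) (hε1 : ε ≤ 1) :
    ∃ g ∈ V, (∀ x, |g x| ≤ 2) ∧ ∫ x, |A.indicator 1 x - g x| ∂mu ≤ 2 * ε := by
  have hint : MemLp (A.indicator (1 : Cfg → ℝ)) 1 mu :=
    memLp_one_iff_integrable.2 ((integrable_const (1 : ℝ)).indicator hA)
  obtain ⟨f, hf, hf2⟩ := hint.exists_boundedContinuous_eLpNorm_sub_le (by norm_num)
    (ε := ENNReal.ofReal ε) (by simpa using hε)
  set f1 : Cfg → ℝ := fun x => max 0 (min 1 (f x)) with hf1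
  have hf1c : Continuous f1 := continuous_const.max (continuous_const.min f.continuous)
  have hf10 : ∀ x, 0 ≤ f1 x := fun x => le_max_left _ _
  have hf11 : ∀ x, f1 x ≤ 1 := fun x => max_le zero_le_one (min_le_left _ _)
  obtain ⟨g, hg, hgf⟩ := exists_approx f1 hf1c hε
  have hgc := V_cont hg
  refine ⟨g, hg, fun x => ?_, ?_⟩
  · have h1 := abs_lt.1 (hgf x)
    have h2 := hf10 x
    have h3 := hf11 x
    exact abs_le.2 ⟨by linarith, by linarith⟩
  · have i1 : Integrable (A.indicator (1 : Cfg → ℝ)) mu := (integrable_const (1 : ℝ)).indicator hA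
    have i2 : Integrable (fun x => f x) mu := integrable_cont f.continuous
    have i12 : Integrable (fun x => |A.indicator (1 : Cfg → ℝ) x - f x|) mu := (i1.sub i2).abs
    have h1 : ∫ x, |A.indicator 1 x - f x| ∂mu ≤ ε := by
      have h2 := integral_norm_eq_lintegral_enorm (μ := mu)
        (f := fun x => A.indicator (1 : Cfg → ℝ) x - f x) (i1.sub i2).aestronglyMeasurable
      simp only [Real.norm_eq_abs] at h2
      rw [h2]
      apply ENNReal.toReal_le_of_le_ofReal hε.le
      rw [eLpNorm_one_eq_lintegral_enorm] at hf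
      exact hf
    have h3 : ∀ x, |A.indicator 1 x - g x| ≤ |A.indicator 1 x - f x| + ε := by
      intro x
      have h4 : |A.indicator 1 x - f1 x| ≤ |A.indicator 1 x - f x| := by
        simp only [hf1]
        by_cases hx : x ∈ A
        · rw [Set.indicator_of_mem hx]
          simp only [Pi.one_apply]
          rcases le_total (f x) 0 with h5 | h5
          · rw [min_eq_right (by linarith), max_eq_left h5, abs_of_nonneg (by norm_num),
              abs_of_nonneg (by linarith)]
            linarith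
          · rcases le_total (f x) 1 with h6 | h6
            · rw [min_eq_right h6, max_eq_right h5]
            · rw [min_eq_left h6, max_eq_right zero_le_one, sub_self, abs_zero]
              exact abs_nonneg _
        · rw [Set.indicator_of_notMem hx]
          rcases le_total (f x) 0 with h5 | h5
          · rw [min_eq_right (by linarith), max_eq_left h5, sub_self, abs_zero]
            exact abs_nonneg _
          · rcases le_total (f x) 1 with h6 | h6
            · rw [min_eq_right h6, max_eq_right h5]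
            · rw [min_eq_left h6, max_eq_right zero_le_one, zero_sub, zero_sub, abs_neg, abs_neg,
                abs_of_nonneg h5, abs_one]
              exact h6
      have h7 := abs_sub_le (A.indicator 1 x) (f1 x) (g x)
      have h8 := (hgf x).le
      rw [abs_sub_comm] at h8
      linarith
    calc ∫ x, |A.indicator 1 x - g x| ∂mu ≤ ∫ x, (|A.indicator 1 x - f x| + ε) ∂mu :=
          integral_mono (i1.sub (integrable_cont hgc)).abs
            (i12.add (integrable_const _)) h3
      _ = ∫ x, |A.indicator 1 x - f x| ∂mu + ε := by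
          rw [integral_add i12 (integrable_const _)]
          simp
      _ ≤ 2 * ε := by linarith

theorem mu_shift_iter (n : ℕ) : mu.map (shift^[n]) = mu := by
  induction n with
  | zero => simp
  | succ n ih =>
    rw [Function.iterate_succ', ← Measure.map_map continuous_shift.measurable
      (cont_iter n).measurable, ih, mu_shift]

theorem set_defect {A B : Set Cfg} (hA : MeasurableSet A) (hB : MeasurableSet B) {ε : ℝ}
    (hε : 0 < ε) (hε1 : ε ≤ 1) : ∃ f ∈ V, ∃ g ∈ V, ∀ n : ℕ,
      |mu.real (A ∩ shift^[n] ⁻¹' B) - mu.real A * mu.real B| ≤ dfc f g n + 12 * ε := by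
  obtain ⟨f, hf, hf2, hfA⟩ := approx_set hA hε hε1
  obtain ⟨g, hg, hg2, hgB⟩ := approx_set hB hε hε1
  refine ⟨f, hf, g, hg, fun n => ?_⟩
  have cf := V_cont hf
  have cg := V_cont hg
  have iA : Integrable (A.indicator (1 : Cfg → ℝ)) mu := (integrable_const (1 : ℝ)).indicator hA
  have iB : Integrable (B.indicator (1 : Cfg → ℝ)) mu := (integrable_const (1 : ℝ)).indicator hB
  have hBn : MeasurableSet (shift^[n] ⁻¹' B) := (cont_iter n).measurable hB
  have iBn : Integrable ((shift^[n] ⁻¹' B).indicator (1 : Cfg → ℝ)) mu :=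
    (integrable_const (1 : ℝ)).indicator hBn
  have iABn : Integrable ((A ∩ shift^[n] ⁻¹' B).indicator (1 : Cfg → ℝ)) mu :=
    (integrable_const (1 : ℝ)).indicator (hA.inter hBn)
  have hBn' : ∀ x, (shift^[n] ⁻¹' B).indicator (1 : Cfg → ℝ) x =
      B.indicator (1 : Cfg → ℝ) (shift^[n] x) := fun x => by
    by_cases h : shift^[n] x ∈ B
    · rw [Set.indicator_of_mem h, Set.indicator_of_mem (show x ∈ shift^[n] ⁻¹' B from h)]; rfl
    · rw [Set.indicator_of_notMem h,
        Set.indicator_of_notMem (show x ∉ shift^[n] ⁻¹' B from h)]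
  have hAB : ∀ x, (A ∩ shift^[n] ⁻¹' B).indicator (1 : Cfg → ℝ) x =
      A.indicator (1 : Cfg → ℝ) x * B.indicator (1 : Cfg → ℝ) (shift^[n] x) := fun x => by
    rw [← hBn', Set.inter_indicator_one]; rfl
  have h01 : ∀ (S : Set Cfg) (x : Cfg), |S.indicator (1 : Cfg → ℝ) x| ≤ 1 := fun S x => by
    by_cases h : x ∈ S
    · rw [Set.indicator_of_mem h]; simp
    · rw [Set.indicator_of_notMem h]; simp
  -- the two error integrals
  have e1 : ∫ x, |B.indicator (1 : Cfg → ℝ) (shift^[n] x) - g (shift^[n] x)| ∂mu ≤ 2 * ε := by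
    have h1 := integral_map (μ := mu) (cont_iter n).measurable.aemeasurable
      (f := fun x => |B.indicator (1 : Cfg → ℝ) x - g x|)
      (by rw [mu_shift_iter]; exact (iB.sub (integrable_cont cg)).abs.aestronglyMeasurable)
    rw [← h1, mu_shift_iter]; exact hgB
  have iBg : Integrable (fun x => |B.indicator (1 : Cfg → ℝ) (shift^[n] x) - g (shift^[n] x)|)
      mu := by
    have h2 : Integrable (fun x => B.indicator (1 : Cfg → ℝ) (shift^[n] x)) mu := by
      simp_rw [← hBn']; exact iBn
    exact (h2.sub (integrable_cont (cg.comp (cont_iter n)))).abs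
  have iAf : Integrable (fun x => |A.indicator (1 : Cfg → ℝ) x - f x|) mu :=
    (iA.sub (integrable_cont cf)).abs
  have k1 : |mu.real (A ∩ shift^[n] ⁻¹' B) - ∫ x, f x * g (shift^[n] x) ∂mu| ≤ 6 * ε := by
    have h1 : mu.real (A ∩ shift^[n] ⁻¹' B) =
        ∫ x, (A ∩ shift^[n] ⁻¹' B).indicator (1 : Cfg → ℝ) x ∂mu :=
      (integral_indicator_one (hA.inter hBn)).symm
    rw [h1, ← integral_sub iABn (int_mul cf cg n)]
    calc |∫ x, ((A ∩ shift^[n] ⁻¹' B).indicator (1 : Cfg → ℝ) x - f x * g (shift^[n] x)) ∂mu| ≤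
        ∫ x, |(A ∩ shift^[n] ⁻¹' B).indicator (1 : Cfg → ℝ) x - f x * g (shift^[n] x)| ∂mu :=
          abs_integral_le_integral_abs
      _ ≤ ∫ x, (|A.indicator (1 : Cfg → ℝ) x - f x| +
            2 * |B.indicator (1 : Cfg → ℝ) (shift^[n] x) - g (shift^[n] x)|) ∂mu := by
          apply integral_mono (iABn.sub (int_mul cf cg n)).abs (iAf.add (iBg.const_mul 2))
          intro x
          change |(A ∩ shift^[n] ⁻¹' B).indicator (1 : Cfg → ℝ) x - f x * g (shift^[n] x)| ≤
            |A.indicator (1 : Cfg → ℝ) x - f x| +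
            2 * |B.indicator (1 : Cfg → ℝ) (shift^[n] x) - g (shift^[n] x)|
          rw [hAB]
          set a := A.indicator (1 : Cfg → ℝ) x
          set b := B.indicator (1 : Cfg → ℝ) (shift^[n] x)
          have h2 : a * b - f x * g (shift^[n] x) = (a - f x) * b + f x * (b - g (shift^[n] x)) := by
            ring
          rw [h2]
          refine (abs_add_le _ _).trans ?_
          rw [abs_mul, abs_mul]
          have h3 : |b| ≤ 1 := h01 B _
          have h4 := hf2 x
          have h5 := abs_nonneg (a - f x)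
          have h6 := abs_nonneg (b - g (shift^[n] x))
          nlinarith
      _ = ∫ x, |A.indicator (1 : Cfg → ℝ) x - f x| ∂mu +
            2 * ∫ x, |B.indicator (1 : Cfg → ℝ) (shift^[n] x) - g (shift^[n] x)| ∂mu := by
          rw [integral_add iAf (iBg.const_mul 2), integral_const_mul]
      _ ≤ 6 * ε := by linarith
  have k2 : |mu.real A - ∫ x, f x ∂mu| ≤ 2 * ε := by
    rw [← integral_indicator_one hA, ← integral_sub iA (integrable_cont cf)]
    exact abs_integral_le_integral_abs.trans hfA
  have k3 : |mu.real B - ∫ x, g x ∂mu| ≤ 2 * ε := by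
    rw [← integral_indicator_one hB, ← integral_sub iB (integrable_cont cg)]
    exact abs_integral_le_integral_abs.trans hgB
  have k4 : |∫ x, f x ∂mu| ≤ 2 := by
    calc |∫ x, f x ∂mu| ≤ ∫ x, |f x| ∂mu := abs_integral_le_integral_abs
      _ ≤ ∫ _, (2 : ℝ) ∂mu := integral_mono (integrable_cont cf).abs (integrable_const _) hf2
      _ = 2 := by simp
  have k5 : |mu.real B| ≤ 1 := by
    rw [abs_of_nonneg measureReal_nonneg]; exact measureReal_le_one
  have k6 : |mu.real A * mu.real B - (∫ x, f x ∂mu) * ∫ x, g x ∂mu| ≤ 6 * ε := by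
    have h2 : mu.real A * mu.real B - (∫ x, f x ∂mu) * ∫ x, g x ∂mu =
        (mu.real A - ∫ x, f x ∂mu) * mu.real B +
          (∫ x, f x ∂mu) * (mu.real B - ∫ x, g x ∂mu) := by ring
    rw [h2]
    refine (abs_add_le _ _).trans ?_
    rw [abs_mul, abs_mul]
    have h5 := abs_nonneg (mu.real A - ∫ x, f x ∂mu)
    have h6 := abs_nonneg (mu.real B - ∫ x, g x ∂mu)
    nlinarith [abs_nonneg (∫ x, f x ∂mu), abs_nonneg (mu.real B)]
  have h7 : mu.real (A ∩ shift^[n] ⁻¹' B) - mu.real A * mu.real B =
      (mu.real (A ∩ shift^[n] ⁻¹' B) - ∫ x, f x * g (shift^[n] x) ∂mu) +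
      (∫ x, f x * g (shift^[n] x) ∂mu - (∫ x, f x ∂mu) * ∫ x, g x ∂mu) -
      (mu.real A * mu.real B - (∫ x, f x ∂mu) * ∫ x, g x ∂mu) := by ring
  rw [h7]
  unfold dfc
  refine (abs_sub _ _).trans ?_
  have h8 := abs_add_le (mu.real (A ∩ shift^[n] ⁻¹' B) - ∫ x, f x * g (shift^[n] x) ∂mu)
    (∫ x, f x * g (shift^[n] x) ∂mu - (∫ x, f x ∂mu) * ∫ x, g x ∂mu)
  linarith

/-- Weak mixing. -/
theorem mu_mixing {A B : Set Cfg} (hA : MeasurableSet A) (hB : MeasurableSet B) :
    Tendsto (fun N : ℕ => (∑ n ∈ range N,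
      |mu.real (A ∩ shift^[n] ⁻¹' B) - mu.real A * mu.real B|) / N) atTop (𝓝 0) := by
  rw [Metric.tendsto_atTop]
  intro e he
  set ε : ℝ := min 1 (e / 24) with hε
  have hεpos : 0 < ε := lt_min one_pos (by positivity)
  have hε1 : ε ≤ 1 := min_le_left _ _
  have hε2 : 12 * ε ≤ e / 2 := by
    have := min_le_right (1 : ℝ) (e / 24)
    rw [← hε] at this
    linarith
  obtain ⟨f, hf, g, hg, hfg⟩ := set_defect hA hB hεpos hε1
  have h1 := ces_V hf hg
  unfold Ces at h1
  obtain ⟨N₀, hN₀⟩ := (Metric.tendsto_atTop.1 h1) (e / 2) (by positivity)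
  refine ⟨max N₀ 1, fun N hN => ?_⟩
  have hNpos : (0 : ℝ) < N := by
    have : 1 ≤ N := (le_max_right _ _).trans hN
    exact_mod_cast this
  have h2 := hN₀ N ((le_max_left _ _).trans hN)
  rw [Real.dist_eq, sub_zero] at h2 ⊢
  rw [abs_of_nonneg (div_nonneg (Finset.sum_nonneg fun n _ => abs_nonneg _) hNpos.le)]
  have h3 := le_abs_self ((∑ n ∈ range N, dfc f g n) / N)
  calc (∑ n ∈ range N, |mu.real (A ∩ shift^[n] ⁻¹' B) - mu.real A * mu.real B|) / N ≤
      (∑ n ∈ range N, (dfc f g n + 12 * ε)) / N := by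
        gcongr with n
        exact hfg n
    _ = (∑ n ∈ range N, dfc f g n) / N + 12 * ε := by
        rw [Finset.sum_add_distrib, Finset.sum_const, card_range, nsmul_eq_mul, add_div,
          mul_div_cancel_left₀ _ hNpos.ne']
    _ < e := by linarith

/-- Convergence to the zero configuration. -/
theorem mu_conv {f : Cfg → ℝ} (hf : Continuous f) :
    Tendsto (fun n : ℕ => ∫ x, f x ∂(mu.map (xorCA^[n]))) atTop (𝓝 (f fun _ => false)) := by
  have hm : ∀ n : ℕ, Continuous (xorCA^[n]) := fun n => continuous_xorCA.iterate n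
  have h0 : ∀ n : ℕ, ∀ f : Cfg → ℝ, Continuous f →
      ∫ x, f x ∂(mu.map (xorCA^[n])) = ∫ x, f (xorCA^[n] x) ∂mu := fun n f hf =>
    integral_map (hm n).measurable.aemeasurable hf.measurable.aestronglyMeasurable
  have hV : ∀ g ∈ V, Tendsto (fun n : ℕ => ∫ x, g (xorCA^[n] x) ∂mu) atTop
      (𝓝 (g fun _ => false)) := by
    intro g hg
    have hg' := hg
    unfold V at hg'
    induction hg' using Submodule.span_induction with
    | mem x hx => obtain ⟨J, rfl⟩ := hx; rw [chi_zero]; exact tendsto_chi_iter J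
    | zero => simp
    | add y z hy hz ihy ihz =>
      refine ((ihy hy).add (ihz hz)).congr fun n => ?_
      have iy : Integrable (fun x => y (xorCA^[n] x)) mu :=
        integrable_cont ((V_cont hy).comp (hm n))
      have iz : Integrable (fun x => z (xorCA^[n] x)) mu :=
        integrable_cont ((V_cont hz).comp (hm n))
      rw [← integral_add iy iz]
      rfl
    | smul a y hy ihy =>
      refine ((ihy hy).const_mul a).congr fun n => ?_
      rw [← integral_const_mul]
      rfl
  simp_rw [fun n => h0 n f hf]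
  rw [Metric.tendsto_atTop]
  intro ε hε
  obtain ⟨g, hg, hgf⟩ := exists_approx f hf (ε := ε / 4) (by positivity)
  obtain ⟨N, hN⟩ := (Metric.tendsto_atTop.1 (hV g hg)) (ε / 4) (by positivity)
  refine ⟨N, fun n hn => ?_⟩
  have h1 := hN n hn
  rw [Real.dist_eq] at h1 ⊢
  have h2 := abs_integral_sub_le (μ := mu) (integrable_cont (hf.comp (hm n)))
    (integrable_cont ((V_cont hg).comp (hm n))) (ε := ε / 4) (fun x => (hgf (xorCA^[n] x)).le)
  simp only [Function.comp_apply] at h2
  have h3 := (hgf fun _ => false).le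
  have h4 : ∫ x, f (xorCA^[n] x) ∂mu - f (fun _ => false) =
      -(∫ x, g (xorCA^[n] x) ∂mu - ∫ x, f (xorCA^[n] x) ∂mu) +
      (∫ x, g (xorCA^[n] x) ∂mu - g (fun _ => false)) +
      (g (fun _ => false) - f (fun _ => false)) := by ring
  rw [h4]
  refine (abs_add_three _ _ _).trans_lt ?_
  rw [abs_neg]
  linarith

end Q71.WX
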