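import Pool.Agent.Q71.WX.Seq

/-!
# The limit measure
-/

namespace Q71.WX

open MeasureTheory Filter Topology Finset
open scoped symmDiff

theorem exp_neg_lip {a b : ℝ} (ha : 0 ≤ a) (hb : 0 ≤ b) :
    |Real.exp (-a) - Real.exp (-b)| ≤ |a - b| := by
  have key : ∀ {a b : ℝ}, 0 ≤ a → a ≤ b → |Real.exp (-a) - Real.exp (-b)| ≤ |a - b| := by
    intro a b ha hab
    have h1 : Real.exp (-b) ≤ Real.exp (-a) := Real.exp_le_exp.2 (by linarith)
    rw [abs_of_nonneg (by linarith), abs_of_nonpos (by linarith)]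
    have h2 : Real.exp (-b) = Real.exp (-a) * Real.exp (-(b - a)) := by
      rw [← Real.exp_add]; congr 1; ring
    have h3 : 1 - (b - a) ≤ Real.exp (-(b - a)) := Real.one_sub_le_exp_neg _
    have h4 : Real.exp (-a) ≤ 1 := Real.exp_le_one_iff.2 (by linarith)
    have h5 := Real.exp_pos (-a)
    rw [h2]
    nlinarith
  rcases le_total a b with h | h
  · exact key ha h
  · rw [abs_sub_comm, abs_sub_comm a b]; exact key hb h

theorem hyper_le : (hyperfilter ℕ : Filter ℕ) ≤ atTop := by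
  rw [← Nat.cofinite_eq_atTop]; exact hyperfilter_le_cofinite

/-- existence of the limit law -/
theorem exists_limit : ∃ μ : Measure Cfg, IsProbabilityMeasure μ ∧
    ∀ J, Tendsto (fun M => Real.exp (-Psi M J)) (hyperfilter ℕ : Filter ℕ)
      (𝓝 (∫ x, chi J x ∂μ)) := by
  have h1 : ∀ M : ℕ, ∃ μ : ProbabilityMeasure Cfg,
      ∀ J, ∫ x, chi J x ∂(μ : Measure Cfg) = Real.exp (-Psi M J) := by
    intro M
    obtain ⟨μ, hμ, h⟩ := exists_law (Ix M) om (lam M) (lam_nonneg M)
    exact ⟨⟨μ, hμ⟩, h⟩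
  choose ν hν using h1
  obtain ⟨μ, -, hμ⟩ := (isCompact_univ (X := ProbabilityMeasure Cfg)).ultrafilter_le_nhds
    ((hyperfilter ℕ).map ν) (by simp)
  have hμ' : Tendsto ν (hyperfilter ℕ : Filter ℕ) (𝓝 μ) := hμ
  refine ⟨μ, inferInstance, fun J => ?_⟩
  have h2 := (ProbabilityMeasure.tendsto_iff_forall_integral_tendsto.1 hμ')
    (BoundedContinuousFunction.mkOfCompact ⟨chi J, continuous_chi J⟩)
  simp only [BoundedContinuousFunction.mkOfCompact_apply, ContinuousMap.coe_mk] at h2
  exact h2.congr fun M => hν M J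

/-- the law -/
noncomputable def mu : Measure Cfg := exists_limit.choose

instance : IsProbabilityMeasure mu := exists_limit.choose_spec.1

theorem mu_chi (J : Finset ℤ) : Tendsto (fun M => Real.exp (-Psi M J))
    (hyperfilter ℕ : Filter ℕ) (𝓝 (∫ x, chi J x ∂mu)) := exists_limit.choose_spec.2 J

theorem continuous_shift : Continuous shift := continuous_pi fun i => continuous_apply (i + 1)

theorem continuous_xorCA : Continuous xorCA := by
  refine continuous_pi fun i => ?_
  have h1 : Continuous fun x : Cfg => (x i, x (i + 1)) :=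
    (continuous_apply i).prodMk (continuous_apply (i + 1))
  have h2 : Continuous fun p : Bool × Bool => xor p.1 p.2 := continuous_of_discreteTopology
  exact h2.comp h1

theorem mu_shift : mu.map shift = mu := by
  have : IsProbabilityMeasure (mu.map shift) :=
    Measure.isProbabilityMeasure_map continuous_shift.measurable.aemeasurable
  apply ext_chi
  intro J
  rw [integral_map continuous_shift.measurable.aemeasurable
    (measurable_chi J).aestronglyMeasurable]
  simp_rw [chi_shift]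
  refine tendsto_nhds_unique (mu_chi _) ?_
  simp_rw [Psi_shift]
  exact mu_chi J

theorem mu_ne : mu ≠ Measure.dirac (fun _ => false) := by
  intro h
  have h1 : ∫ x, chi {0} x ∂mu = Real.exp (-2) := by
    refine tendsto_nhds_unique (mu_chi _) ?_
    simp_rw [Psi_zero]
    exact tendsto_const_nhds
  rw [h, integral_dirac, chi_zero] at h1
  have h2 : Real.exp (-2) < 1 := by
    rw [← Real.exp_zero]; exact Real.exp_lt_exp.2 (by norm_num)
  linarith

theorem er_le (r : ℕ) : er r ≤ 3 * (1 / ((r : ℝ) + 1)) + 4 * (1 / 2) ^ r := by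
  unfold er
  have h1 : ((r : ℝ) + 1) ≤ 2 ^ r := by exact_mod_cast Nat.lt_two_pow_self (n := r)
  have h2 : (2 : ℝ) ^ lev r / 2 ^ lev (r + 1) = (1 / 2) ^ (2 * r + 1) := by
    have : lev (r + 1) = lev r + (2 * r + 1) := by unfold lev; ring
    rw [this, pow_add, one_div, inv_pow]
    field_simp
  rw [h2]
  have h3 : (1 / 2 : ℝ) ^ (2 * r + 1) = (1 / 2) ^ r * (1 / 2) ^ r * (1 / 2) := by
    rw [pow_succ, two_mul, pow_add]
  rw [h3]
  have h4 : (2 : ℝ) ^ r * (1 / 2) ^ r = 1 := by rw [← mul_pow]; norm_num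
  have h5 : (0 : ℝ) < (1 / 2) ^ r := by positivity
  have h6 : ((r : ℝ) + 1) * (1 / 2) ^ r ≤ 1 :=
    (mul_le_mul_of_nonneg_right h1 h5.le).trans h4.le
  have h7 : 3 / ((r : ℝ) + 1) = 3 * (1 / (r + 1)) := by ring
  rw [h7]
  nlinarith

theorem er_nonneg (r : ℕ) : 0 ≤ er r := by unfold er; positivity

theorem tendsto_er : Tendsto er atTop (𝓝 0) := by
  refine squeeze_zero er_nonneg er_le ?_
  have h1 := (tendsto_one_div_add_atTop_nhds_zero_nat (𝕜 := ℝ)).const_mul 3
  have h2 := (tendsto_pow_atTop_nhds_zero_of_lt_one (r := (1 / 2 : ℝ)) (by norm_num)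
    (by norm_num)).const_mul 4
  have := h1.add h2
  simpa using this

theorem exists_level (k : ℕ) : ∃ r, k ≤ lev r := ⟨k, by unfold lev; nlinarith⟩

/-- the level attached to `k` -/
noncomputable def lv (k : ℕ) : ℕ := Nat.find (exists_level k)

theorem le_lv (k : ℕ) : k ≤ lev (lv k) := Nat.find_spec (exists_level k)

theorem lt_lv {k i : ℕ} (h : i < lv k) : lev i + 1 ≤ k := by
  have := Nat.find_min (exists_level k) h
  omega

theorem tendsto_lv : Tendsto lv atTop atTop := by
  rw [tendsto_atTop]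
  intro b
  filter_upwards [eventually_gt_atTop (lev b)] with k hk
  by_contra h
  rw [not_le] at h
  have := le_lv k
  have h2 := lev_le h.le
  omega

theorem chi_tau_bound {n : ℕ} (hn : n ≠ 0) (J : Finset ℤ) :
    1 - ∫ x, chi (tau^[n] J) x ∂mu ≤ 2 * (J.card * er (lv (Nat.log 2 n))) := by
  have h1 : Tendsto (fun M => 1 - Real.exp (-Psi M (tau^[n] J))) (hyperfilter ℕ : Filter ℕ)
      (𝓝 (1 - ∫ x, chi (tau^[n] J) x ∂mu)) := (mu_chi _).const_sub 1
  refine le_of_tendsto h1 (hyper_le ?_)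
  filter_upwards [eventually_ge_atTop (lv (Nat.log 2 n) + 1)] with M hM
  have h2 := Psi_tau (M := M) (n := n) (k := Nat.log 2 n) (r := lv (Nat.log 2 n))
    (Nat.pow_log_le_self 2 hn) (Nat.lt_pow_succ_log_self (by norm_num) n) hM
    (fun i hi => lt_lv hi) (le_lv _) J
  have h3 := Real.one_sub_le_exp_neg (Psi M (tau^[n] J))
  linarith

theorem tendsto_chi_iter (J : Finset ℤ) :
    Tendsto (fun n : ℕ => ∫ x, chi J (xorCA^[n] x) ∂mu) atTop (𝓝 1) := by
  have h1 : Tendsto (fun n : ℕ => 2 * (J.card * er (lv (Nat.log 2 n)))) atTop (𝓝 0) := by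
    have h2 : Tendsto (fun n : ℕ => Nat.log 2 n) atTop atTop := by
      rw [tendsto_atTop]
      intro b
      filter_upwards [eventually_ge_atTop (2 ^ b)] with n hn
      exact Nat.le_log_of_pow_le (by norm_num) hn
    have h3 := ((tendsto_er.comp (tendsto_lv.comp h2)).const_mul (J.card : ℝ)).const_mul 2
    simpa using h3
  have h4 : Tendsto (fun n : ℕ => 1 - ∫ x, chi J (xorCA^[n] x) ∂mu) atTop (𝓝 0) := by
    refine squeeze_zero' (Filter.Eventually.of_forall fun n => ?_) ?_ h1
    · have h5 : ∫ x, chi J (xorCA^[n] x) ∂mu ≤ ∫ _, (1 : ℝ) ∂mu := by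
        apply integral_mono _ (integrable_const _) fun x => chi_le_one _ _
        simp_rw [chi_iter]
        exact integrable_cont (continuous_chi _)
      simp only [integral_const, probReal_univ, one_smul] at h5
      linarith
    · filter_upwards [eventually_ne_atTop 0] with n hn
      simp_rw [chi_iter]
      exact chi_tau_bound hn J
  have h6 := h4.const_sub 1
  simpa using h6

/-- Cesàro convergence to zero -/
def Ces (u : ℕ → ℝ) : Prop := Tendsto (fun N : ℕ => (∑ n ∈ range N, u n) / N) atTop (𝓝 0)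

theorem Ces.mono {u v : ℕ → ℝ} (hv : Ces v) (h0 : ∀ n, 0 ≤ u n) (h : ∀ n, u n ≤ v n) : Ces u := by
  refine squeeze_zero (fun N => ?_) (fun N => ?_) hv
  · exact div_nonneg (Finset.sum_nonneg fun n _ => h0 n) (Nat.cast_nonneg _)
  · gcongr with n
    exact h n

theorem Ces.add {u v : ℕ → ℝ} (hu : Ces u) (hv : Ces v) : Ces (fun n => u n + v n) := by
  have := Tendsto.add hu hv
  rw [add_zero] at this
  refine this.congr fun N => ?_
  rw [Finset.sum_add_distrib, add_div]

theorem Ces.const_mul {u : ℕ → ℝ} (hu : Ces u) (c : ℝ) : Ces (fun n => c * u n) := by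
  have := Tendsto.const_mul c hu
  rw [mul_zero] at this
  refine this.congr fun N => ?_
  rw [← Finset.mul_sum, mul_div_assoc]

theorem Ces.zero : Ces (fun _ => 0) := by
  unfold Ces; simp

theorem ces_of_windows {u : ℕ → ℝ} (h0 : ∀ n, 0 ≤ u n) {C : ℝ}
    (hw : ∀ m n₀ : ℕ, ∑ n ∈ range (2 ^ lev m), u (n₀ + n) ≤ C * (2 ^ lev m * Bd m)) : Ces u := by
  have hmul : ∀ m T : ℕ, ∑ n ∈ range (2 ^ lev m * T), u n ≤ T * (C * (2 ^ lev m * Bd m)) := by
    intro m T
    induction T with
    | zero => simp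
    | succ T ih =>
      rw [mul_add, mul_one, Finset.sum_range_add]
      have := hw m (2 ^ lev m * T)
      push_cast
      linarith
  unfold Ces
  rw [Metric.tendsto_atTop]
  intro ε hε
  have h1 : Tendsto (fun m => 2 * (C * Bd m)) atTop (𝓝 0) := by
    have := (tendsto_Bd.const_mul C).const_mul 2
    simpa using this
  obtain ⟨m, hm⟩ := (h1.eventually (gt_mem_nhds hε)).exists
  set W : ℕ := 2 ^ lev m with hW
  have hWpos : 0 < W := by positivity
  refine ⟨W, fun N hN => ?_⟩
  have hNpos : (0 : ℝ) < N := by exact_mod_cast hWpos.trans_le hN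
  have hsum0 : 0 ≤ ∑ n ∈ range N, u n := Finset.sum_nonneg fun n _ => h0 n
  rw [Real.dist_eq, sub_zero, abs_of_nonneg (div_nonneg hsum0 hNpos.le), div_lt_iff₀ hNpos]
  have h2 : ∑ n ∈ range N, u n ≤ ∑ n ∈ range (W * (N / W + 1)), u n := by
    apply Finset.sum_le_sum_of_subset_of_nonneg
    · intro n hn
      rw [Finset.mem_range] at hn ⊢
      have := Nat.lt_mul_div_succ N hWpos
      omega
    · intro n _ _; exact h0 n
  have h3 := hmul m (N / W + 1)
  rw [← hW] at h3
  have h4 : ((W : ℝ)) * ((N / W + 1 : ℕ) : ℝ) ≤ 2 * N := by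
    have h5 : W * (N / W) ≤ N := Nat.mul_div_le N W
    have h6 : W * (N / W + 1) ≤ 2 * N := by rw [mul_add, mul_one]; omega
    exact_mod_cast h6
  have hCB : 0 ≤ C * Bd m := by
    by_contra hneg
    rw [not_le] at hneg
    have h7 := hw m 0
    have h8 : 0 ≤ ∑ n ∈ range (2 ^ lev m), u (0 + n) := Finset.sum_nonneg fun n _ => h0 _
    have h9 : (0 : ℝ) < 2 ^ lev m := by positivity
    nlinarith
  have h10 : ((N / W + 1 : ℕ) : ℝ) * (C * (2 ^ lev m * Bd m)) =
      (C * Bd m) * ((W : ℝ) * ((N / W + 1 : ℕ) : ℝ)) := by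
    rw [hW]; push_cast; ring
  rw [h10] at h3
  have h11 : (C * Bd m) * ((W : ℝ) * ((N / W + 1 : ℕ) : ℝ)) ≤ (C * Bd m) * (2 * N) := by gcongr
  have h12 : (C * Bd m) * (2 * N) = 2 * (C * Bd m) * N := by ring
  have h13 : 2 * (C * Bd m) * N < ε * N := by gcongr
  linarith

theorem ces_chi (J J' : Finset ℤ) :
    Ces (fun n => |∫ x, chi J x * chi J' (shift^[n] x) ∂mu -
      (∫ x, chi J x ∂mu) * ∫ x, chi J' x ∂mu|) := by
  have hshift : ∀ n : ℕ, ∫ x, chi (J'.image (· + (n : ℤ))) x ∂mu = ∫ x, chi J' x ∂mu := by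
    intro n
    simp_rw [← chi_shift_iter]
    have hm : Measurable (shift^[n]) := (continuous_shift.iterate n).measurable
    have hmap : mu.map (shift^[n]) = mu := by
      induction n with
      | zero => simp
      | succ n ih =>
        have hm' : Measurable (shift^[n]) := (continuous_shift.iterate n).measurable
        rw [Function.iterate_succ', ← Measure.map_map continuous_shift.measurable hm', ih hm',
          mu_shift]
    have := integral_map (μ := mu) hm.aemeasurable (f := chi J')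
      (measurable_chi J').aestronglyMeasurable
    rw [← this, hmap]
  have hprod : ∀ n : ℕ, ∫ x, chi J x * chi J' (shift^[n] x) ∂mu =
      ∫ x, chi (J ∆ (J'.image (· + (n : ℤ)))) x ∂mu := by
    intro n
    simp_rw [chi_shift_iter, chi_symmDiff]
  simp_rw [hprod]
  refine ces_of_windows (fun n => abs_nonneg _) (C := 4 * (J.card * J'.card)) fun m n₀ => ?_
  -- pass to the limit
  have h1 : Tendsto (fun M => ∑ n ∈ range (2 ^ lev m),
      |Real.exp (-Psi M (J ∆ (J'.image (· + ((n₀ + n : ℕ) : ℤ))))) -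
        Real.exp (-Psi M J) * Real.exp (-Psi M (J'.image (· + ((n₀ + n : ℕ) : ℤ))))|)
      (hyperfilter ℕ : Filter ℕ)
      (𝓝 (∑ n ∈ range (2 ^ lev m), |∫ x, chi (J ∆ (J'.image (· + ((n₀ + n : ℕ) : ℤ)))) x ∂mu -
        (∫ x, chi J x ∂mu) * ∫ x, chi J' x ∂mu|)) := by
    apply tendsto_finsetSum
    intro n _
    have h2 := mu_chi (J'.image (· + ((n₀ + n : ℕ) : ℤ)))
    rw [hshift] at h2
    exact ((mu_chi _).sub ((mu_chi J).mul h2)).abs
  refine le_of_tendsto h1 (hyper_le ?_)
  filter_upwards [eventually_ge_atTop m] with M hM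
  have h3 : ∀ n ∈ range (2 ^ lev m),
      |Real.exp (-Psi M (J ∆ (J'.image (· + ((n₀ + n : ℕ) : ℤ))))) -
        Real.exp (-Psi M J) * Real.exp (-Psi M (J'.image (· + ((n₀ + n : ℕ) : ℤ))))| ≤
      4 * ∑ j ∈ J, ∑ j' ∈ J', corr M j ((j' + n₀) + n) := by
    intro n _
    rw [← Real.exp_add, ← neg_add]
    refine (exp_neg_lip (Psi_nonneg _ _) (add_nonneg (Psi_nonneg _ _) (Psi_nonneg _ _))).trans ?_
    have h4 := Psi_symmDiff M J (J'.image (· + ((n₀ + n : ℕ) : ℤ)))
    rw [sub_sub] at h4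
    refine h4.trans (le_of_eq ?_)
    congr 1
    refine Finset.sum_congr rfl fun j _ => ?_
    rw [Finset.sum_image (by intro a _ b _ h; simpa using h)]
    refine Finset.sum_congr rfl fun j' _ => ?_
    congr 1; push_cast; ring
  refine (Finset.sum_le_sum h3).trans ?_
  rw [← Finset.mul_sum, Finset.sum_comm]
  calc 4 * ∑ j ∈ J, ∑ n ∈ range (2 ^ lev m), ∑ j' ∈ J', corr M j (j' + n₀ + n) =
      4 * ∑ j ∈ J, ∑ j' ∈ J', ∑ n ∈ range (2 ^ lev m), corr M j (j' + n₀ + n) := by
        congr 1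
        refine Finset.sum_congr rfl fun j _ => ?_
        rw [Finset.sum_comm]
    _ ≤ 4 * ∑ j ∈ J, ∑ j' ∈ J', (2 ^ lev m * Bd m) := by
        gcongr with j _ j' _
        exact corr_sum hM j _
    _ = _ := by
        rw [Finset.sum_const, Finset.sum_const, nsmul_eq_mul, nsmul_eq_mul]; ring

end Q71.WX
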