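import Pool.Agent.Q71.WX.Count

/-!
# Random sets of levels
-/

namespace Q71.WX

open Finset Filter Topology

/-- `L r = 1 + H_r` -/
noncomputable def L (r : ℕ) : ℝ := 1 + ∑ i ∈ range r, 1 / ((i : ℝ) + 1)

/-- the probabilities of the levels -/
noncomputable def dl (i : ℕ) : ℝ := 1 / ((i + 1) * L i)

theorem one_le_L (r : ℕ) : 1 ≤ L r := by
  unfold L
  have : 0 ≤ ∑ i ∈ range r, 1 / ((i : ℝ) + 1) := Finset.sum_nonneg fun i _ => by positivity
  linarith

theorem L_le (r : ℕ) : L r ≤ r + 1 := by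
  unfold L
  have : ∑ i ∈ range r, 1 / ((i : ℝ) + 1) ≤ ∑ i ∈ range r, (1 : ℝ) := by
    refine Finset.sum_le_sum fun i _ => ?_
    rw [div_le_one (by positivity)]
    have : (0 : ℝ) ≤ i := i.cast_nonneg
    linarith
  have h2 : ∑ i ∈ range r, (1 : ℝ) = r := by simp
  linarith

theorem L_succ (r : ℕ) : L (r + 1) = L r + 1 / ((r : ℝ) + 1) := by
  unfold L; rw [Finset.sum_range_succ]; ring

theorem L_succ' (r : ℕ) : L (r + 1) = L r * (1 + dl r) := by
  have h := one_le_L r
  rw [L_succ]; unfold dl; field_simp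

theorem dl_pos (i : ℕ) : 0 < dl i := by
  have h := one_le_L i
  unfold dl; positivity

theorem dl_le (i : ℕ) : dl i ≤ 1 := by
  have h := one_le_L i
  unfold dl
  rw [div_le_one (by positivity)]
  have : (0 : ℝ) ≤ i := i.cast_nonneg
  nlinarith

theorem prod_L (r : ℕ) : ∏ i ∈ range r, (1 + dl i) = L r := by
  induction r with
  | zero => simp [L]
  | succ r ih => rw [Finset.prod_range_succ, ih, L_succ']

theorem tendsto_L : Tendsto L atTop atTop := by
  unfold L
  exact tendsto_atTop_add_const_left _ _ Real.tendsto_sum_range_one_div_nat_succ_atTop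

/-- the correlation bound -/
noncomputable def Bd (m : ℕ) : ℝ := ∏ i ∈ range m, (1 - dl i / 2)

theorem Bd_nonneg (m : ℕ) : 0 ≤ Bd m :=
  Finset.prod_nonneg fun i _ => by have := dl_le i; linarith

theorem Bd_sq (m : ℕ) : Bd m ^ 2 * L m ≤ 1 := by
  rw [← prod_L]
  unfold Bd
  rw [← Finset.prod_pow, ← Finset.prod_mul_distrib]
  apply Finset.prod_le_one
  · intro i _
    have := dl_pos i
    positivity
  · intro i _
    have h1 := dl_pos i
    have h2 := dl_le i
    nlinarith [mul_pos h1 h1, mul_nonneg (mul_pos h1 h1).le (by linarith : (0 : ℝ) ≤ 1 - dl i)]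

theorem tendsto_Bd : Tendsto Bd atTop (𝓝 0) := by
  have h1 : ∀ m, Bd m ≤ √(1 / L m) := by
    intro m
    apply Real.le_sqrt_of_sq_le
    have := one_le_L m
    rw [le_div_iff₀ (by linarith)]
    exact Bd_sq m
  have h2 : Tendsto (fun m => √(1 / L m)) atTop (𝓝 0) := by
    have h3 : Tendsto (fun m => 1 / L m) atTop (𝓝 0) := by
      simp_rw [one_div]; exact tendsto_inv_atTop_zero.comp tendsto_L
    have h4 := (Real.continuous_sqrt.tendsto 0).comp h3
    rwa [Real.sqrt_zero] at h4
  exact squeeze_zero Bd_nonneg h1 h2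

/-- the probability of `R` -/
noncomputable def pr (M : ℕ) (R : Finset ℕ) : ℝ :=
  (∏ i ∈ R, dl i) * ∏ i ∈ range M \ R, (1 - dl i)

theorem pr_nonneg (M : ℕ) (R : Finset ℕ) : 0 ≤ pr M R :=
  mul_nonneg (Finset.prod_nonneg fun i _ => (dl_pos i).le)
    (Finset.prod_nonneg fun i _ => by have := dl_le i; linarith)

theorem sum_pr (M : ℕ) (c : ℕ → ℝ) :
    ∑ R ∈ (range M).powerset, pr M R * ∏ i ∈ R, c i =
      ∏ i ∈ range M, (dl i * c i + (1 - dl i)) := by
  rw [Finset.prod_add]
  refine Finset.sum_congr rfl fun R _ => ?_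
  unfold pr
  rw [Finset.prod_mul_distrib]
  ring

theorem sum_pr_one (M : ℕ) : ∑ R ∈ (range M).powerset, pr M R = 1 := by
  have h := sum_pr M (fun _ => 1)
  simp only [Finset.prod_const_one, mul_one] at h
  rw [h]
  apply Finset.prod_eq_one
  intro i _; ring

theorem prod_ite_range {M r : ℕ} (hr : r ≤ M) (f : ℕ → ℝ) :
    ∏ i ∈ range M, (if i < r then f i else 1) = ∏ i ∈ range r, f i := by
  rw [← Finset.prod_filter]
  congr 1
  ext i; simp only [Finset.mem_filter, Finset.mem_range]; omega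

theorem pow_card_filter (R : Finset ℕ) (r : ℕ) (a : ℝ) :
    a ^ (R.filter (fun i => i < r)).card = ∏ i ∈ R, (if i < r then a else 1) := by
  rw [← Finset.prod_filter, Finset.prod_const]

theorem sum_pr_pow {M r : ℕ} (hr : r ≤ M) (a : ℝ) :
    ∑ R ∈ (range M).powerset, pr M R * a ^ (R.filter (fun i => i < r)).card =
      ∏ i ∈ range r, (dl i * a + (1 - dl i)) := by
  simp_rw [pow_card_filter]
  rw [sum_pr, ← prod_ite_range hr]
  refine Finset.prod_congr rfl fun i _ => ?_
  split_ifs
  · rfl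
  · ring

theorem sum_pr_two {M r : ℕ} (hr : r ≤ M) :
    ∑ R ∈ (range M).powerset, pr M R * 2 ^ (R.filter (fun i => i < r)).card = L r := by
  rw [sum_pr_pow hr, ← prod_L]
  refine Finset.prod_congr rfl fun i _ => ?_
  ring

theorem sum_pr_half {M m : ℕ} (hm : m ≤ M) :
    ∑ R ∈ (range M).powerset, pr M R * (1 / 2) ^ (R.filter (fun i => i < m)).card = Bd m := by
  rw [sum_pr_pow hm]
  unfold Bd
  refine Finset.prod_congr rfl fun i _ => ?_
  ring

theorem sum_pr_two_ind {M r : ℕ} (hr : r + 1 ≤ M) :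
    ∑ R ∈ (range M).powerset, pr M R * (2 ^ (R.filter (fun i => i < r)).card *
      (if r ∈ R then 1 else 0)) = 1 / ((r : ℝ) + 1) := by
  have h1 := sum_pr_two hr
  have h2 := sum_pr_two (r := r) (M := M) (by omega)
  have h3 : ∀ R : Finset ℕ, (2 : ℝ) ^ (R.filter (fun i => i < r)).card *
      (if r ∈ R then 1 else 0) = 2 ^ (R.filter (fun i => i < r + 1)).card -
        2 ^ (R.filter (fun i => i < r)).card := by
    intro R
    split_ifs with h
    · have h4 : R.filter (fun i => i < r + 1) = insert r (R.filter (fun i => i < r)) := by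
        ext i
        simp only [Finset.mem_filter, Finset.mem_insert]
        constructor
        · rintro ⟨h5, h6⟩
          rcases Nat.lt_succ_iff_lt_or_eq.1 h6 with h7 | h7
          · exact Or.inr ⟨h5, h7⟩
          · exact Or.inl h7
        · rintro (h5 | ⟨h5, h6⟩)
          · subst h5; exact ⟨h, Nat.lt_succ_self _⟩
          · exact ⟨h5, Nat.lt_succ_of_lt h6⟩
      rw [h4, Finset.card_insert_of_notMem (by simp)]
      ring
    · have h4 : R.filter (fun i => i < r + 1) = R.filter (fun i => i < r) := by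
        ext i
        simp only [Finset.mem_filter]
        constructor
        · rintro ⟨h5, h6⟩
          refine ⟨h5, ?_⟩
          rcases Nat.lt_succ_iff_lt_or_eq.1 h6 with h7 | h7
          · exact h7
          · exact absurd (h7 ▸ h5) h
        · rintro ⟨h5, h6⟩
          exact ⟨h5, by omega⟩
      rw [h4]; ring
  simp_rw [h3, mul_sub]
  rw [Finset.sum_sub_distrib, h1, h2, L_succ]
  ring

end Q71.WX
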