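import Pool.Agent.Q71.WX.Chars
import Pool.Agent.Q71.WX.Wt

/-!
# The approximating compound Poisson laws
-/

namespace Q71.WX

open Finset
open scoped symmDiff

/-- index set -/
def Ix (M : ℕ) : Finset (Finset ℕ × ℕ) := (range M).powerset ×ˢ range (2 ^ lev M)

/-- the configurations -/
def om (a : Finset ℕ × ℕ) : Cfg := fun j => decide (AR a.1 (j + a.2))

/-- the weights -/
noncomputable def lam (M : ℕ) (a : Finset ℕ × ℕ) : ℝ := pr M a.1 * 2 ^ a.1.card / 2 ^ lev M

theorem lam_nonneg (M : ℕ) (a : Finset ℕ × ℕ) : 0 ≤ lam M a := by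
  have := pr_nonneg M a.1
  unfold lam; positivity

/-- the total mass functional -/
noncomputable def mass (M : ℕ) (f : Finset ℕ × ℕ → ℝ) : ℝ := ∑ a ∈ Ix M, lam M a * f a

theorem mass_mono {M : ℕ} {f g : Finset ℕ × ℕ → ℝ} (h : ∀ a ∈ Ix M, f a ≤ g a) :
    mass M f ≤ mass M g :=
  Finset.sum_le_sum fun a ha => mul_le_mul_of_nonneg_left (h a ha) (lam_nonneg M a)

theorem mass_nonneg {M : ℕ} {f : Finset ℕ × ℕ → ℝ} (h : ∀ a, 0 ≤ f a) : 0 ≤ mass M f :=
  Finset.sum_nonneg fun a _ => mul_nonneg (lam_nonneg M a) (h a)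

theorem mass_sum {ι : Type*} (M : ℕ) (s : Finset ι) (f : ι → Finset ℕ × ℕ → ℝ) :
    mass M (fun a => ∑ i ∈ s, f i a) = ∑ i ∈ s, mass M (f i) := by
  unfold mass
  rw [Finset.sum_comm]
  simp_rw [Finset.mul_sum]

theorem mass_const_mul (M : ℕ) (c : ℝ) (f : Finset ℕ × ℕ → ℝ) :
    mass M (fun a => c * f a) = c * mass M f := by
  unfold mass
  rw [Finset.mul_sum]
  refine Finset.sum_congr rfl fun a _ => ?_
  ring

theorem mass_eq (M : ℕ) (f : Finset ℕ × ℕ → ℝ) :
    mass M f = ∑ R ∈ (range M).powerset, pr M R * (2 ^ R.card *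
      ((∑ s ∈ range (2 ^ lev M), f (R, s)) / 2 ^ lev M)) := by
  unfold mass Ix
  rw [Finset.sum_product]
  refine Finset.sum_congr rfl fun R _ => ?_
  unfold lam
  simp only
  rw [← Finset.mul_sum]
  ring

/-- occupation indicator -/
def occ (x : Cfg) (j : ℤ) : ℝ := if x j then 1 else 0

theorem occ_nonneg (x : Cfg) (j : ℤ) : 0 ≤ occ x j := by unfold occ; split_ifs <;> norm_num

theorem occ_om (R : Finset ℕ) (s : ℕ) (j : ℤ) : occ (om (R, s)) j = ind R (s + j) := by
  unfold occ om ind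
  rw [add_comm j]
  by_cases h : AR R ((s : ℤ) + j) <;> simp [h]

theorem lev_bound {M : ℕ} {R : Finset ℕ} (hR : R ∈ (range M).powerset) :
    ∀ i ∈ R, lev i + 1 ≤ lev M := fun _ hi =>
  lev_lt (Finset.mem_range.1 (Finset.mem_powerset.1 hR hi))

theorem mass_occ (M : ℕ) (j : ℤ) : mass M (fun a => occ (om a) j) = 1 := by
  rw [mass_eq, ← sum_pr_one M]
  refine Finset.sum_congr rfl fun R hR => ?_
  simp_rw [occ_om]
  rw [sum_ind (lev_bound hR) j]
  have h1 : (2 : ℝ) ^ R.card * ((1 / 2) ^ R.card * 2 ^ lev M / 2 ^ lev M) = 1 := by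
    rw [mul_div_assoc, div_self (by positivity), mul_one, ← mul_pow]
    norm_num
  rw [h1, mul_one]

/-- the exponent -/
noncomputable def Psi (M : ℕ) (J : Finset ℤ) : ℝ := mass M fun a => 1 - chi J (om a)

theorem Psi_nonneg (M : ℕ) (J : Finset ℤ) : 0 ≤ Psi M J :=
  mass_nonneg fun a => by linarith [chi_le_one J (om a)]

theorem Psi_zero (M : ℕ) : Psi M {0} = 2 := by
  unfold Psi
  have h1 : ∀ a, 1 - chi {0} (om a) = 2 * occ (om a) 0 := by
    intro a
    unfold chi occ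
    rw [Finset.prod_singleton]
    split_ifs <;> norm_num
  simp_rw [h1]
  have h2 := mass_occ M 0
  unfold mass at h2 ⊢
  have h3 : ∀ a, lam M a * (2 * occ (om a) 0) = 2 * (lam M a * occ (om a) 0) := fun a => by ring
  simp_rw [h3]
  rw [← Finset.mul_sum, h2, mul_one]

theorem Psi_shift (M : ℕ) (J : Finset ℤ) : Psi M (J.image (· + 1)) = Psi M J := by
  unfold Psi
  rw [mass_eq, mass_eq]
  refine Finset.sum_congr rfl fun R hR => ?_
  congr 3
  set f : ℤ → ℝ := fun s => 1 - chi J (fun j => decide (AR R (j + s))) with hf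
  have hper : ∀ x, f (x + ((2 ^ lev M : ℕ) : ℤ)) = f x := by
    intro x
    simp only [hf]
    congr 2
    funext j
    have h2 := AR_add_period (lev_bound hR) (j + x) 1
    rw [one_mul] at h2
    have h3 : j + (x + ((2 ^ lev M : ℕ) : ℤ)) = j + x + 2 ^ lev M := by push_cast; ring
    rw [h3]
    exact decide_eq_decide.2 h2
  have h1 := sum_shift hper 1
  have h2 : ∀ s : ℕ, 1 - chi (J.image (· + 1)) (om (R, s)) = f (s + 1) := by
    intro s
    rw [← chi_shift]
    simp only [hf]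
    congr 2
    funext j
    unfold shift om
    simp only
    congr 2
    ring
  simp_rw [h2]
  exact h1

/-- correlations -/
noncomputable def corr (M : ℕ) (j j' : ℤ) : ℝ := mass M fun a => occ (om a) j * occ (om a) j'

theorem corr_nonneg (M : ℕ) (j j' : ℤ) : 0 ≤ corr M j j' :=
  mass_nonneg fun _ => mul_nonneg (occ_nonneg _ _) (occ_nonneg _ _)

theorem ind_filter_le (R : Finset ℕ) (m : ℕ) (x : ℤ) :
    ind R x ≤ ind (R.filter (fun i => i < m)) x := by
  unfold ind
  by_cases h : AR R x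
  · have h2 : AR (R.filter (fun i => i < m)) x := fun i hi => h i (Finset.mem_filter.1 hi).1
    rw [if_pos h, if_pos h2]
  · rw [if_neg h]; split_ifs <;> norm_num

theorem corr_sum {M m : ℕ} (hm : m ≤ M) (j j' : ℤ) :
    ∑ n ∈ range (2 ^ lev m), corr M j (j' + n) ≤ 2 ^ lev m * Bd m := by
  unfold corr
  simp_rw [mass_eq]
  rw [Finset.sum_comm, ← sum_pr_half hm, Finset.mul_sum]
  refine Finset.sum_le_sum fun R hR => ?_
  rw [← Finset.mul_sum, ← Finset.mul_sum, ← Finset.sum_div, Finset.sum_comm]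
  set Rm := R.filter (fun i => i < m) with hRm
  have h1 : ∀ s ∈ range (2 ^ lev M), ∑ n ∈ range (2 ^ lev m),
      occ (om (R, s)) j * occ (om (R, s)) (j' + n) ≤
      ind R (s + j) * ((1 / 2) ^ Rm.card * 2 ^ lev m) := by
    intro s _
    rw [← Finset.mul_sum]
    simp_rw [occ_om]
    apply mul_le_mul_of_nonneg_left _ (ind_nonneg _ _)
    calc ∑ n ∈ range (2 ^ lev m), ind R (s + (j' + n)) ≤
        ∑ n ∈ range (2 ^ lev m), ind Rm (n + (s + j')) := by
          refine Finset.sum_le_sum fun n _ => ?_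
          have : (s : ℤ) + (j' + n) = n + (s + j') := by ring
          rw [this]
          exact ind_filter_le R m _
      _ = (1 / 2) ^ Rm.card * 2 ^ lev m :=
          sum_ind (fun i hi => lev_lt (Finset.mem_filter.1 hi).2) _
  have h2 := Finset.sum_le_sum h1
  rw [← Finset.sum_mul, sum_ind (lev_bound hR) j] at h2
  have h3 := pr_nonneg M R
  have h4 : pr M R * (2 ^ R.card * ((∑ s ∈ range (2 ^ lev M), ∑ n ∈ range (2 ^ lev m),
      occ (om (R, s)) j * occ (om (R, s)) (j' + n)) / 2 ^ lev M)) ≤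
      pr M R * (2 ^ R.card * ((1 / 2) ^ R.card * 2 ^ lev M * ((1 / 2) ^ Rm.card * 2 ^ lev m) /
        2 ^ lev M)) := by
    gcongr
  refine h4.trans (le_of_eq ?_)
  have h5 : (2 : ℝ) ^ R.card * (1 / 2) ^ R.card = 1 := by rw [← mul_pow]; norm_num
  have h6 : (2 : ℝ) ^ R.card * ((1 / 2) ^ R.card * 2 ^ lev M * ((1 / 2) ^ Rm.card * 2 ^ lev m) /
        2 ^ lev M) = (2 ^ R.card * (1 / 2) ^ R.card) * ((1 / 2) ^ Rm.card * 2 ^ lev m) := by
    field_simp
  rw [h6, h5]
  ring

theorem Psi_symmDiff (M : ℕ) (J J' : Finset ℤ) :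
    |Psi M (J ∆ J') - Psi M J - Psi M J'| ≤ 4 * ∑ j ∈ J, ∑ j' ∈ J', corr M j j' := by
  have h1 : Psi M (J ∆ J') - Psi M J - Psi M J' =
      -mass M fun a => (1 - chi J (om a)) * (1 - chi J' (om a)) := by
    unfold Psi mass
    rw [← Finset.sum_sub_distrib, ← Finset.sum_sub_distrib, ← Finset.sum_neg_distrib]
    refine Finset.sum_congr rfl fun a _ => ?_
    simp only
    rw [chi_symmDiff]; ring
  have h2 : ∀ a, 0 ≤ (1 - chi J (om a)) * (1 - chi J' (om a)) := fun a =>
    mul_nonneg (by linarith [chi_le_one J (om a)]) (by linarith [chi_le_one J' (om a)])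
  rw [h1, abs_neg, abs_of_nonneg (mass_nonneg h2)]
  have h3 : 4 * ∑ j ∈ J, ∑ j' ∈ J', corr M j j' =
      mass M fun a => (2 * ∑ j ∈ J, occ (om a) j) * (2 * ∑ j' ∈ J', occ (om a) j') := by
    have e1 : ∀ a, (2 * ∑ j ∈ J, occ (om a) j) * (2 * ∑ j' ∈ J', occ (om a) j') =
        4 * ∑ j ∈ J, ∑ j' ∈ J', occ (om a) j * occ (om a) j' := by
      intro a
      rw [← Finset.sum_mul_sum]; ring
    simp_rw [e1]
    rw [mass_const_mul, mass_sum]
    simp_rw [mass_sum]
    rfl
  rw [h3]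
  apply mass_mono
  intro a _
  have n1 : 0 ≤ ∑ j ∈ J, occ (om a) j := Finset.sum_nonneg fun j _ => occ_nonneg _ _
  apply mul_le_mul (one_sub_chi_le J (om a)) (one_sub_chi_le J' (om a))
  · linarith [chi_le_one J' (om a)]
  · change 0 ≤ 2 * ∑ j ∈ J, occ (om a) j
    linarith

/-! ### The automaton -/

theorem xorCA_pow (k : ℕ) : ∀ (x : Cfg) (i : ℤ),
    (xorCA^[2 ^ k] x) i = xor (x i) (x (i + 2 ^ k)) := by
  induction k with
  | zero => intro x i; simp [xorCA]
  | succ k ih =>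
    intro x i
    rw [pow_succ, mul_two, Function.iterate_add_apply, ih, ih, ih]
    have h1 : i + 2 ^ k + 2 ^ k = i + 2 ^ (k + 1) := by ring
    rw [h1]
    cases x i <;> cases x (i + 2 ^ k) <;> cases x (i + 2 ^ (k + 1)) <;> rfl

theorem xorCA_local (n : ℕ) : ∀ (y : Cfg) (i : ℤ), (∀ u : ℤ, 0 ≤ u → u ≤ n → y (i + u) = false) →
    (xorCA^[n] y) i = false := by
  induction n with
  | zero => intro y i h; simpa using h 0 le_rfl le_rfl
  | succ n ih =>
    intro y i h
    rw [Function.iterate_succ_apply']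
    unfold xorCA
    have h1 := ih y i (fun u h0 h1 => h u h0 (by push_cast; linarith))
    have h2 := ih y (i + 1) (fun u h0 h1 => by
      have := h (1 + u) (by linarith) (by push_cast; linarith)
      rwa [← add_assoc] at this)
    unfold xorCA at h1 h2
    rw [h1, h2]; rfl

theorem xorCA_om {n k : ℕ} (h1 : 2 ^ k ≤ n) (h2 : n < 2 ^ (k + 1)) (R : Finset ℕ) (s : ℕ) (j : ℤ)
    (h : (xorCA^[n] (om (R, s))) j = true) : PR R k (s + j) := by
  by_contra hno
  unfold PR at hno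
  push Not at hno
  obtain ⟨m, rfl⟩ := Nat.exists_eq_add_of_le' h1
  rw [Function.iterate_add_apply] at h
  have h3 := xorCA_local m (xorCA^[2 ^ k] (om (R, s))) j (by
    intro u hu0 hu1
    rw [xorCA_pow]
    have hm : m < 2 ^ k := by rw [pow_succ] at h2; omega
    have h4 := hno u hu0 (by
      have : (m : ℤ) < 2 ^ k := by exact_mod_cast hm
      linarith)
    have e1 : (s : ℤ) + j + u = j + u + s := by ring
    have e2 : (s : ℤ) + j + u + 2 ^ k = j + u + 2 ^ k + s := by ring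
    unfold om
    simp only
    rw [e2, e1] at h4
    by_cases h5 : AR R (j + u + s)
    · have h6 := h4.1 h5
      simp [h5, h6]
    · have h6 : ¬ AR R (j + u + 2 ^ k + s) := fun h => h5 (h4.2 h)
      simp [h5, h6])
  rw [h3] at h
  exact absurd h (by simp)

/-- the error bound -/
noncomputable def er (r : ℕ) : ℝ := 3 / ((r : ℝ) + 1) + 4 * (r + 1) * (2 ^ lev r / 2 ^ lev (r + 1))

theorem mass_CA {n k r M : ℕ} (h1 : 2 ^ k ≤ n) (h2 : n < 2 ^ (k + 1)) (hrM : r + 1 ≤ M)
    (hlow : ∀ i < r, lev i + 1 ≤ k) (hk : k ≤ lev r) (j : ℤ) :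
    mass M (fun a => occ (xorCA^[n] (om a)) j) ≤ er r := by
  classical
  rw [mass_eq]
  have hq : (0 : ℝ) ≤ 2 ^ lev r / 2 ^ lev (r + 1) := by positivity
  have hL := one_le_L r
  have key : ∀ R ∈ (range M).powerset, pr M R * (2 ^ R.card *
      ((∑ s ∈ range (2 ^ lev M), occ (xorCA^[n] (om (R, s))) j) / 2 ^ lev M)) ≤
      3 * (pr M R * (2 ^ (R.filter (fun i => i < r)).card * (if r ∈ R then 1 else 0))) +
      4 * (2 ^ lev r / 2 ^ lev (r + 1)) * (pr M R * 2 ^ (R.filter (fun i => i < r)).card) := by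
    intro R hR
    have h3 : ∑ s ∈ range (2 ^ lev M), occ (xorCA^[n] (om (R, s))) j ≤
        ∑ s ∈ range (2 ^ lev M), (if PR R k (s + j) then (1 : ℝ) else 0) := by
      refine Finset.sum_le_sum fun s _ => ?_
      unfold occ
      by_cases h : (xorCA^[n] (om (R, s))) j = true
      · rw [if_pos h, if_pos (xorCA_om h1 h2 R s j h)]
      · rw [if_neg h]; split_ifs <;> norm_num
    have h4 := h3.trans (sum_PR (Finset.mem_powerset.1 hR) hrM hlow hk j)
    set B := R.filter (fun i => r ≤ i) with hB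
    have hcard : R.card = (R.filter (fun i => i < r)).card + B.card := by
      rw [hB, ← Finset.card_filter_add_card_filter_not (s := R) (fun i => i < r)]
      simp only [not_lt]
    have h5 := pr_nonneg M R
    have h6 : pr M R * (2 ^ R.card *
      ((∑ s ∈ range (2 ^ lev M), occ (xorCA^[n] (om (R, s))) j) / 2 ^ lev M)) ≤
      pr M R * (2 ^ R.card * ((2 ^ lev M * (1 / 2) ^ B.card *
        (3 * (if r ∈ R then 1 else 0) + 4 * (2 ^ lev r / 2 ^ lev (r + 1)))) / 2 ^ lev M)) := by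
      gcongr
    refine h6.trans (le_of_eq ?_)
    have h7 : (2 : ℝ) ^ B.card * (1 / 2) ^ B.card = 1 := by rw [← mul_pow]; norm_num
    rw [hcard, pow_add]
    have h8 : (2 : ℝ) ^ (R.filter (fun i => i < r)).card * 2 ^ B.card * (2 ^ lev M *
        (1 / 2) ^ B.card * (3 * (if r ∈ R then 1 else 0) + 4 * (2 ^ lev r / 2 ^ lev (r + 1))) /
          2 ^ lev M) = 2 ^ (R.filter (fun i => i < r)).card * (2 ^ B.card * (1 / 2) ^ B.card) *
          (3 * (if r ∈ R then 1 else 0) + 4 * (2 ^ lev r / 2 ^ lev (r + 1))) := by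
      field_simp
    rw [h8, h7]
    ring
  refine (Finset.sum_le_sum key).trans ?_
  rw [Finset.sum_add_distrib, ← Finset.mul_sum, ← Finset.mul_sum, sum_pr_two_ind hrM,
    sum_pr_two (by omega)]
  unfold er
  have h9 := L_le r
  have h10 : 4 * (2 ^ lev r / 2 ^ lev (r + 1)) * L r ≤
      4 * (2 ^ lev r / 2 ^ lev (r + 1)) * ((r : ℝ) + 1) := by gcongr
  have h11 : 3 * (1 / ((r : ℝ) + 1)) = 3 / (r + 1) := by ring
  rw [h11]
  linarith

/-- the dual map on characters -/
def tau (J : Finset ℤ) : Finset ℤ := J ∆ (J.image (· + 1))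

theorem chi_iter (n : ℕ) : ∀ (J : Finset ℤ) (x : Cfg), chi J (xorCA^[n] x) = chi (tau^[n] J) x := by
  induction n with
  | zero => intro J x; rfl
  | succ n ih =>
    intro J x
    rw [Function.iterate_succ_apply, ih, chi_xorCA, Function.iterate_succ_apply']
    rfl

theorem Psi_tau {n k r M : ℕ} (h1 : 2 ^ k ≤ n) (h2 : n < 2 ^ (k + 1)) (hrM : r + 1 ≤ M)
    (hlow : ∀ i < r, lev i + 1 ≤ k) (hk : k ≤ lev r) (J : Finset ℤ) :
    Psi M (tau^[n] J) ≤ 2 * (J.card * er r) := by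
  unfold Psi
  simp_rw [← chi_iter]
  calc mass M (fun a => 1 - chi J (xorCA^[n] (om a))) ≤
      mass M (fun a => 2 * ∑ j ∈ J, occ (xorCA^[n] (om a)) j) :=
        mass_mono fun a _ => one_sub_chi_le J _
    _ = 2 * ∑ j ∈ J, mass M (fun a => occ (xorCA^[n] (om a)) j) := by
        rw [mass_const_mul, mass_sum]
    _ ≤ 2 * ∑ j ∈ J, er r := by
        gcongr with j
        exact mass_CA h1 h2 hrM hlow hk j
    _ = _ := by rw [Finset.sum_const, nsmul_eq_mul]

end Q71.WX

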